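import Pool.Agent.Helper23.NS.Poly

/-! Naturality of the explicit expressions under semiring homomorphisms. -/

namespace Helper23.NS
open Finset

variable {K K' : Type*} [CommSemiring K] [CommSemiring K'] (f : K →+* K') (x : K)

theorem map_pv (mx s : ℕ) (T : ℕ → Bool) : ∀ k u v, f (pv x mx s T k u v) = pv (f x) mx s T k u v
  | 0, u, v => by
    unfold pv
    split_ifs <;> simp
  | k + 1, u', v' => by
    unfold pv
    split_ifs
    · rw [map_mul, map_pow, map_sum]
      congr 1
      refine Finset.sum_congr rfl fun u _ => ?_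
      rw [map_sum]
      refine Finset.sum_congr rfl fun v _ => ?_
      split_ifs
      · exact map_pv mx s T k u v
      · exact map_zero f
    · exact map_zero f

theorem map_PP (mx s : ℕ) (T1 T2 : ℕ → Bool) (z : K) (k : ℕ) :
    f (PP x mx s T1 T2 z k) = PP (f x) mx s T1 T2 (f z) k := by
  cases k with
  | zero => rfl
  | succ k =>
    unfold PP
    rw [map_sum]
    refine Finset.sum_congr rfl fun u _ => ?_
    rw [map_sum]
    refine Finset.sum_congr rfl fun v _ => ?_
    split_ifs
    · exact map_pv f x mx s T1 k u v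
    · exact map_zero f

theorem map_mid (mx s : ℕ) : f (mid x mx s) = mid (f x) mx s := by
  unfold mid
  rw [map_sum]
  refine Finset.sum_congr rfl fun v _ => ?_
  split_ifs <;> simp

theorem map_pal (n : ℕ) (P H : K) : f (pal n P H) = pal n (f P) (f H) := by simp [pal]

theorem map_HH (F : ℕ → K) (m : K) (k : ℕ) : f (HH F m k) = HH (fun k => f (F k)) (f m) k := by
  simp [HH]

theorem map_PR (q k : ℕ) : f (PR x q k) = PR (f x) q k := by
  unfold PR; rw [map_PP, map_one]
theorem map_P11 (q k : ℕ) : f (P11 x q k) = P11 (f x) q k := by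
  unfold P11; rw [map_PP, map_one]
theorem map_P12 (q k : ℕ) : f (P12 x q k) = P12 (f x) q k := by
  unfold P12; rw [map_PP, map_zero]
theorem map_F1 (q k : ℕ) : f (F1 x q k) = F1 (f x) q k := by
  unfold F1; rw [map_PP, map_one]
theorem map_F2 (q k : ℕ) : f (F2 x q k) = F2 (f x) q k := by
  unfold F2; rw [map_PP, map_zero]
theorem map_HR (q k : ℕ) : f (HR x q k) = HR (f x) q k := by
  unfold HR HH; rw [map_mul, map_pow, map_mid, map_PR]
theorem map_H1 (q k : ℕ) : f (H1 x q k) = H1 (f x) q k := by
  unfold H1 HH; rw [map_mul, map_pow, map_mid, map_F1]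
theorem map_H2 (q k : ℕ) : f (H2 x q k) = H2 (f x) q k := by
  unfold H2 HH; rw [map_mul, map_pow, map_mid, map_F2]

theorem map_RA (q a N : ℕ) : f (RA x q a N) = RA (f x) q a N := by
  unfold RA
  simp only [map_sum, map_mul, map_pal, map_PR, map_HR]

theorem map_LA (q a N : ℕ) : f (LA x q a N) = LA (f x) q a N := by
  unfold LA
  simp only [map_sum, map_add, map_mul, map_pal, map_P11, map_P12, map_H1, map_H2]

theorem map_lm (q : ℕ) : f (lm x q) = lm (f x) q := by
  unfold lm; simp only [map_sum]
  refine Finset.sum_congr rfl fun u _ => Finset.sum_congr rfl fun v _ => ?_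
  split_ifs <;> simp
theorem map_lmid (q : ℕ) : f (lmid x q) = lmid (f x) q := by
  unfold lmid; simp only [map_sum]
  refine Finset.sum_congr rfl fun u _ => ?_
  split_ifs <;> simp
theorem map_ro (q : ℕ) : f (ro x q) = ro (f x) q := by
  unfold ro; simp only [map_sum]
  refine Finset.sum_congr rfl fun u _ => Finset.sum_congr rfl fun v _ => ?_
  split_ifs <;> simp
theorem map_ra (q : ℕ) : f (ra x q) = ra (f x) q := by
  unfold ra; simp only [map_sum]
  refine Finset.sum_congr rfl fun u _ => ?_
  split_ifs <;> simp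
theorem map_rmid (q : ℕ) : f (rmid x q) = rmid (f x) q := by
  unfold rmid; simp only [map_sum]
  refine Finset.sum_congr rfl fun u _ => ?_
  split_ifs <;> simp

theorem map_lb (q a : ℕ) : f (lb x q a) = lb (f x) q a := by
  unfold lb
  simp only [map_sum, map_mul, map_pal, map_pow, map_ra, map_ro, map_lm, map_lmid]

theorem map_Bsh (q N : ℕ) : f (Bsh x q N) = Bsh (f x) q N := by
  unfold Bsh
  simp only [map_sum, map_mul, map_add, map_one, map_pal, map_pow, map_rmid, map_ro, map_lm, map_lmid]

theorem map_EE (q N : ℕ) : f (EE x q N) = EE (f x) q N := by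
  unfold EE
  simp only [map_sum, map_mul, map_add, map_pow, map_LA, map_lb, map_RA, map_Bsh]

theorem map_pp (q : ℕ) : f (pp x q) = pp (f x) q := by
  unfold pp; simp only [map_sum]
  refine Finset.sum_congr rfl fun u _ => Finset.sum_congr rfl fun v _ => ?_
  split_ifs <;> simp

theorem map_AA (q N : ℕ) : f (AA x q N) = AA (f x) q N := by
  unfold AA
  simp only [map_sum, map_mul, map_add, map_one, map_pow, map_pp, map_mid]

theorem map_E6 (N : ℕ) : f (E6 x N) = E6 (f x) N := by
  unfold E6
  simp only [map_sum, map_mul, map_pow, map_AA]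

theorem map_ET (N : ℕ) : f (ET x N) = ET (f x) N := by
  unfold ET
  rw [map_add, map_add, map_EE, map_EE, map_E6]

open Polynomial in
/-- Chernoff bound for coefficients -/
theorem coeff_mul_pow_le (p : ℕ[X]) {y : ℝ} (hy : 0 ≤ y) (g : ℕ) :
    (p.coeff g : ℝ) * y ^ g ≤ eval₂ (Nat.castRingHom ℝ) y p := by
  rw [eval₂_eq_sum_range]
  by_cases hg : g ∈ Finset.range (p.natDegree + 1)
  · exact Finset.single_le_sum (f := fun i => (Nat.castRingHom ℝ) (p.coeff i) * y ^ i)
      (fun i _ => by simp only [Nat.coe_castRingHom]; positivity) hg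
  · have : p.coeff g = 0 := coeff_eq_zero_of_natDegree_lt (by
      rw [Finset.mem_range] at hg; omega)
    rw [this]
    simp only [Nat.cast_zero, zero_mul]
    exact Finset.sum_nonneg fun i _ => by simp only [Nat.coe_castRingHom]; positivity

open Polynomial in
theorem ET_coeff_le {y M : ℝ} (hy : 0 ≤ y) (N : ℕ) (hM : ET y N ≤ M) (g : ℕ) :
    ((ET (X : ℕ[X]) N).coeff g : ℝ) * y ^ g ≤ M := by
  refine (coeff_mul_pow_le _ hy g).trans ?_
  have := map_ET (eval₂RingHom (Nat.castRingHom ℝ) y) (X : ℕ[X]) N
  simp only [coe_eval₂RingHom, eval₂_X] at this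
  rw [this]; exact hM

end Helper23.NS
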