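import Pool.Agent.Helper23.NS.Main
import Pool.Agent.Helper23.NS.Natl

/-! Assembly of the modules (A, B, C, D as hypotheses). -/

namespace Helper23.NS
open Polynomial Finset

/-- growth of a Fibonacci type sequence -/
theorem fib_ratio (t : ℕ → ℕ) (n0 : ℕ) (hrec : ∀ g, n0 ≤ g → t (g + 2) = t (g + 1) + t g)
    (h1 : 8 * t n0 ≤ 5 * t (n0 + 1)) (h2 : 3 * t (n0 + 1) ≤ 5 * t n0) :
    ∀ g, n0 ≤ g → 8 * t g ≤ 5 * t (g + 1) ∧ 3 * t (g + 1) ≤ 5 * t g := by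
  intro g hg
  induction g, hg using Nat.le_induction with
  | base => exact ⟨h1, h2⟩
  | succ g hg ih =>
    rw [hrec g hg]
    omega

/-- the tail: `8000 (2000/1253)^g < t (g-1)` for all `g > n1` -/
theorem tail_bound (t : ℕ → ℕ) (n0 n1 : ℕ) (hn : n0 ≤ n1) (hrec : ∀ g, n0 ≤ g → t (g + 2) = t (g + 1) + t g)
    (h1 : 8 * t n0 ≤ 5 * t (n0 + 1)) (h2 : 3 * t (n0 + 1) ≤ 5 * t n0)
    (h640 : 8000 * 2000 ^ (n1 + 1) < t n1 * 1253 ^ (n1 + 1)) :
    ∀ g, n1 ≤ g → 8000 * 2000 ^ (g + 1) < t g * 1253 ^ (g + 1) := by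
  intro g hg
  induction g, hg using Nat.le_induction with
  | base => exact h640
  | succ g hg ih =>
    have := (fib_ratio t n0 hrec h1 h2 g (by omega)).1
    have h3 : 2000 * t g ≤ 1253 * t (g + 1) := by omega
    calc 8000 * 2000 ^ (g + 1 + 1) = 2000 * (8000 * 2000 ^ (g + 1)) := by ring
      _ < 2000 * (t g * 1253 ^ (g + 1)) := by omega
      _ = (2000 * t g) * 1253 ^ (g + 1) := by ring
      _ ≤ (1253 * t (g + 1)) * 1253 ^ (g + 1) := Nat.mul_le_mul_right _ h3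
      _ = t (g + 1) * 1253 ^ (g + 1 + 1) := by ring

/-- `r_g < t (g-1)` for all `g ≥ 1` -/
theorem rword_lt (t : ℕ → ℕ) (n1 : ℕ)
    (htail : ∀ g, n1 ≤ g → 8000 * 2000 ^ (g + 1) < t g * 1253 ^ (g + 1))
    (hC : ∀ g, 1 ≤ g → g ≤ n1 → (ET (X : ℕ[X]) n1).coeff g < t (g - 1))
    (hD : ∀ N, ET (1253 / 2000 : ℝ) N ≤ 8000) :
    ∀ g, 1 ≤ g → (rword g).ncard < t (g - 1) := by
  intro g hg
  rcases Nat.lt_or_ge n1 g with h | h
  · obtain ⟨m, rfl⟩ : ∃ m, g = m + 1 := ⟨g - 1, by omega⟩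
    have h1 := ET_coeff_le (y := 1253 / 2000) (by norm_num) (m + 1) (hD (m + 1)) (m + 1)
    have h2 := htail m (by omega)
    refine (rword_ncard_le le_rfl).trans_lt ?_
    rw [Nat.add_sub_cancel]
    by_contra hcon
    push Not at hcon
    have h3 : ((t m : ℝ)) * (1253 / 2000) ^ (m + 1) ≤ 8000 :=
      (mul_le_mul_of_nonneg_right (by exact_mod_cast hcon) (by positivity)).trans h1
    rw [div_pow, ← mul_div_assoc, div_le_iff₀ (by positivity)] at h3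
    have h4 : t m * 1253 ^ (m + 1) ≤ 8000 * 2000 ^ (m + 1) := by exact_mod_cast h3
    omega
  · exact (rword_ncard_le h).trans_lt (hC g hg h)

/-- the theorem, from the modules -/
theorem assemble (t : ℕ → ℕ)
    (hA : ∀ g, (nsg g).ncard = (kword g).ncard)
    (hfin : ∀ g, (kword g).Finite)
    (hT : ∀ w, IsT w → IsKunz w)
    (hsplit : ∀ g, kword g ⊆ tword g ∪ rword g)
    (hrec : ∀ g, (tword (g + 1)).ncard + (tword g).ncard ≤ (tword (g + 2)).ncard)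
    (ht : ∀ g, t g ≤ (tword g).ncard)
    (hr : ∀ g, 1 ≤ g → (rword g).ncard < t (g - 1)) :
    ∀ g, 1 ≤ g → (nsg g).ncard < (nsg (g + 1)).ncard := by
  intro g hg
  rw [hA, hA]
  obtain ⟨m, rfl⟩ : ∃ m, g = m + 1 := ⟨g - 1, by omega⟩
  have hsub : ∀ g, tword g ⊆ kword g := fun g w hw => ⟨hT w hw.1, hw.2⟩
  have hsub' : ∀ g, rword g ⊆ kword g := fun g w hw => ⟨hw.1, hw.2.1⟩
  have h1 : (kword (m + 1)).ncard ≤ (tword (m + 1)).ncard + (rword (m + 1)).ncard :=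
    (Set.ncard_le_ncard (hsplit _) (((hfin _).subset (hsub _)).union ((hfin _).subset (hsub' _)))).trans
      (Set.ncard_union_le _ _)
  have h2 : (tword (m + 2)).ncard ≤ (kword (m + 2)).ncard :=
    Set.ncard_le_ncard (hsub _) (hfin _)
  have h3 := hrec m
  have h4 := ht m
  have h5 := hr (m + 1) (by omega)
  rw [Nat.add_sub_cancel] at h5
  show (kword (m + 1)).ncard < (kword (m + 2)).ncard
  omega

end Helper23.NS
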