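import Pool.Agent.Helper23.NS.Poly

/-! Coefficientwise domination of weighted counting by polynomials. -/

namespace Helper23.NS
open Polynomial Finset

/-- the number of elements of `S` of weight `g` is at most `p.coeff g`, for every `g` -/
def Bd {α : Type*} (S : Set α) (wt : α → ℕ) (p : ℕ[X]) : Prop :=
  ∀ g, ∃ F : Finset α, (∀ x ∈ S, wt x = g → x ∈ F) ∧ F.card ≤ p.coeff g

variable {α β γ : Type*}

theorem Bd.mono {S T : Set α} {wt : α → ℕ} {p : ℕ[X]} (h : Bd T wt p) (hS : S ⊆ T) :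
    Bd S wt p := fun g => by
  obtain ⟨F, hF, hc⟩ := h g
  exact ⟨F, fun x hx => hF x (hS hx), hc⟩

theorem Bd.le {S : Set α} {wt : α → ℕ} {p q : ℕ[X]} (h : Bd S wt p)
    (hp : ∀ n, p.coeff n ≤ q.coeff n) : Bd S wt q := fun g => by
  obtain ⟨F, hF, hc⟩ := h g
  exact ⟨F, hF, hc.trans (hp g)⟩

theorem Bd.map {S : Set α} {T : Set β} {wt : α → ℕ} {wt' : β → ℕ} {p : ℕ[X]} (h : Bd T wt' p)
    (d : β → α) (hd : ∀ x ∈ S, ∃ y ∈ T, d y = x ∧ wt x = wt' y) : Bd S wt p := fun g => by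
  classical
  obtain ⟨F, hF, hc⟩ := h g
  refine ⟨F.image d, fun x hx hg => ?_, Finset.card_image_le.trans hc⟩
  obtain ⟨y, hy, rfl, hw⟩ := hd x hx
  exact Finset.mem_image_of_mem d (hF y hy (hw ▸ hg))

theorem Bd.shift {S : Set α} {T : Set β} {wt : α → ℕ} {wt' : β → ℕ} {p : ℕ[X]} (h : Bd T wt' p)
    (c : ℕ) (d : β → α) (hd : ∀ x ∈ S, ∃ y ∈ T, d y = x ∧ wt x = wt' y + c) :
    Bd S wt (X ^ c * p) := fun g => by
  classical
  by_cases hg : c ≤ g
  · obtain ⟨F, hF, hc⟩ := h (g - c)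
    refine ⟨F.image d, fun x hx hg' => ?_, Finset.card_image_le.trans ?_⟩
    · obtain ⟨y, hy, rfl, hw⟩ := hd x hx
      exact Finset.mem_image_of_mem d (hF y hy (by omega))
    · rw [Polynomial.coeff_X_pow_mul', if_pos hg]; exact hc
  · refine ⟨∅, fun x hx hg' => ?_, by simp⟩
    obtain ⟨y, hy, rfl, hw⟩ := hd x hx
    omega

theorem Bd.union {S T : Set α} {wt : α → ℕ} {p q : ℕ[X]} (h : Bd S wt p) (h' : Bd T wt q) :
    Bd (S ∪ T) wt (p + q) := fun g => by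
  classical
  obtain ⟨F, hF, hc⟩ := h g
  obtain ⟨F', hF', hc'⟩ := h' g
  refine ⟨F ∪ F', fun x hx hg => ?_, (Finset.card_union_le _ _).trans ?_⟩
  · rcases hx with hx | hx
    · exact Finset.mem_union_left _ (hF x hx hg)
    · exact Finset.mem_union_right _ (hF' x hx hg)
  · rw [Polynomial.coeff_add]; omega

theorem Bd.empty {wt : α → ℕ} {p : ℕ[X]} : Bd (∅ : Set α) wt p :=
  fun g => ⟨∅, fun x hx => absurd hx (Set.notMem_empty x), by simp⟩

theorem Bd.biUnion {ι : Type*} (I : Finset ι) {S : ι → Set α} {wt : α → ℕ} {p : ι → ℕ[X]}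
    (h : ∀ i ∈ I, Bd (S i) wt (p i)) : Bd (⋃ i ∈ I, S i) wt (∑ i ∈ I, p i) := by
  classical
  induction I using Finset.induction_on with
  | empty => simpa using Bd.empty
  | insert i I hi ih =>
    rw [Finset.sum_insert hi]
    refine ((h i (Finset.mem_insert_self i I)).union
      (ih fun j hj => h j (Finset.mem_insert_of_mem hj))).mono ?_
    intro x hx
    simp only [Set.mem_iUnion, Finset.mem_insert, Set.mem_union] at hx ⊢
    obtain ⟨j, hj | hj, hx⟩ := hx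
    · left; exact hj ▸ hx
    · right; exact ⟨j, hj, hx⟩

/-- a sum bound where every element of `S` lies in some `S i` -/
theorem Bd.sum {ι : Type*} (I : Finset ι) {S : Set α} {T : ι → Set α} {wt : α → ℕ}
    {p : ι → ℕ[X]} (h : ∀ i ∈ I, Bd (T i) wt (p i)) (hS : ∀ x ∈ S, ∃ i ∈ I, x ∈ T i) :
    Bd S wt (∑ i ∈ I, p i) := by
  refine (Bd.biUnion I h).mono fun x hx => ?_
  obtain ⟨i, hi, hx⟩ := hS x hx
  simp only [Set.mem_iUnion]
  exact ⟨i, hi, hx⟩

theorem Bd.prod {S : Set α} {T : Set β} {wt : α → ℕ} {wt' : β → ℕ} {p q : ℕ[X]}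
    (h : Bd S wt p) (h' : Bd T wt' q) :
    Bd (S ×ˢ T) (fun z => wt z.1 + wt' z.2) (p * q) := fun g => by
  classical
  choose F hF hc using h
  choose F' hF' hc' using h'
  refine ⟨(Finset.HasAntidiagonal.antidiagonal g).biUnion fun ij => F ij.1 ×ˢ F' ij.2, fun x hx hg => ?_, ?_⟩
  · rw [Finset.mem_biUnion]
    refine ⟨(wt x.1, wt' x.2), Finset.HasAntidiagonal.mem_antidiagonal.2 hg, ?_⟩
    rw [Finset.mem_product]
    exact ⟨hF _ _ hx.1 rfl, hF' _ _ hx.2 rfl⟩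
  · refine Finset.card_biUnion_le.trans ?_
    rw [Polynomial.coeff_mul]
    refine Finset.sum_le_sum fun ij _ => ?_
    rw [Finset.card_product]
    exact Nat.mul_le_mul (hc _) (hc' _)

theorem Bd.single (x : α) (wt : α → ℕ) : Bd {x} wt (X ^ wt x) := fun g => by
  classical
  by_cases hg : wt x = g
  · refine ⟨{x}, fun y hy _ => by simpa using hy, ?_⟩
    rw [Polynomial.coeff_X_pow, if_pos hg.symm]; simp
  · refine ⟨∅, fun y hy hg' => ?_, by simp⟩
    rw [Set.mem_singleton_iff] at hy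
    exact absurd (hy ▸ hg') hg

theorem Bd.single' {S : Set α} (x : α) (wt : α → ℕ) (c : ℕ) (hS : ∀ y ∈ S, y = x ∧ wt y = c) :
    Bd S wt (X ^ c) := fun g => by
  classical
  by_cases hg : c = g
  · refine ⟨{x}, fun y hy _ => by simpa using (hS y hy).1, ?_⟩
    rw [Polynomial.coeff_X_pow, if_pos hg.symm]; simp
  · refine ⟨∅, fun y hy hg' => ?_, by simp⟩
    exact absurd ((hS y hy).2 ▸ hg') hg

/-- decode from a product -/
theorem Bd.mul {S : Set α} {T : Set β} {U : Set γ} {wt : α → ℕ} {wt' : β → ℕ} {wt'' : γ → ℕ}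
    {p q : ℕ[X]} (h : Bd S wt p) (h' : Bd T wt' q) (d : α → β → γ)
    (hd : ∀ z ∈ U, ∃ x ∈ S, ∃ y ∈ T, d x y = z ∧ wt'' z = wt x + wt' y) : Bd U wt'' (p * q) :=
  (h.prod h').map (fun z => d z.1 z.2) fun z hz => by
    obtain ⟨x, hx, y, hy, e, hw⟩ := hd z hz
    exact ⟨(x, y), ⟨hx, hy⟩, e, hw⟩

/-- conclusion: cardinalities -/
theorem Bd.ncard_le {S : Set α} {wt : α → ℕ} {p : ℕ[X]} (h : Bd S wt p) (g : ℕ)
    {U : Set α} (hU : ∀ x ∈ U, x ∈ S ∧ wt x = g) : U.ncard ≤ p.coeff g := by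
  obtain ⟨F, hF, hc⟩ := h g
  refine le_trans ?_ hc
  rw [← Set.ncard_coe_finset F]
  exact Set.ncard_le_ncard (fun x hx => hF x (hU x hx).1 (hU x hx).2) F.finite_toSet

end Helper23.NS
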