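import Pool.Agent.Helper23.NS.Mat

namespace Helper23.NS
open Polynomial Finset

theorem Blk.palS {mx s' a : ℕ} {w : List ℕ} (hw : Blk mx s' a w) {T : ℕ → Bool} {o n h : ℕ}
    (hr : 0 < h → 0 < n → w.length = (o + (o + (n - 1))) + 1 + a * (h - 1))
    (hT : ∀ i, i < n → 0 < h → T (w.getD (o + i) 0) = true) :
    cols (fun i => w.getD i 0) a o n h ∈ PalS [] (CP mx s' T T h) (Self mx s' T h) n := by
  refine ⟨by simp, fun i hi => ?_, fun i hi => ?_⟩
  · rw [cols_getD (by omega), cols_getD (by omega)]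
    refine hw.cp (fun hh => ?_) (fun hh => hT i (by omega) hh) (fun hh => hT _ (by omega) hh)
    have := hr hh (by omega)
    omega
  · rw [cols_getD (by omega)]
    refine CP.self (hw.cp (fun hh => ?_) (fun hh => hT i (by omega) hh) (fun hh => hT i (by omega) hh))
    have := hr hh (by omega)
    omega

theorem right_bd (q a N : ℕ) (ha : 0 < a) :
    Bd {w : List ℕ | w.length ≤ N ∧ Blk (q - 1) (q - 1) a w} List.sum (RA (X : ℕ[X]) q a N) := by
  unfold RA
  refine Bd.sum2 _ _ (T := fun k s => {w : List ℕ | s < a ∧ w.length = a * k + s ∧ Blk (q - 1) (q - 1) a w})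
    (fun k _ s hs => ?_) ?_
  · have hs : s < a := mem_range.1 hs
    have hp : ∀ h, Bd {z : List ℕ × List ℕ | CP (q - 1) (q - 1) tt tt h z.1 z.2}
        (fun z => z.1.sum + z.2.sum) (PR (X : ℕ[X]) q h) := fun h =>
      PP_bd _ _ _ _ _ _ fun _ => rfl
    have hh : ∀ h, Bd {x | Self (q - 1) (q - 1) tt h x} List.sum (HR (X : ℕ[X]) q h) := fun h =>
      self_bd h (hp _)
    refine (pal_bd [] (hp (k + 1)) (hh (k + 1)) s).mul (pal_bd [] (hp k) (hh k) (a - s))
      (undo a s (a * k + s)) ?_
    rintro w ⟨-, hl, hw⟩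
    refine ⟨_, ?_, _, ?_, ?_, cols_weight hs hl⟩
    · exact hw.palS (fun _ _ => by rw [hl]; simp; omega) (fun _ _ _ => rfl)
    · refine hw.palS (fun hk _ => ?_) (fun _ _ _ => rfl)
      rw [hl]
      obtain ⟨k', rfl⟩ : ∃ k', k = k' + 1 := ⟨k - 1, by omega⟩
      rw [Nat.mul_succ, Nat.add_sub_cancel]; omega
    · conv_rhs => rw [← undo_cols hs hl]
      rw [hl]
  · rintro w ⟨hN, hw⟩
    refine ⟨w.length / a, ?_, w.length % a, mem_range.2 (Nat.mod_lt _ ha), Nat.mod_lt _ ha,
      (Nat.div_add_mod _ _).symm, hw⟩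
    rw [mem_range]
    exact Nat.lt_succ_of_le (Nat.div_le_div_right hN)

theorem cols_cons_snoc (f : ℕ → ℕ) (a o n h : ℕ) :
    cols f a o (n + 2) h = col f a o h :: (cols f a (o + 1) n h ++ [col f a (o + n + 1) h]) := by
  unfold cols
  rw [List.range_succ_eq_map, List.map_cons, List.map_map, List.range_succ, List.map_append]
  simp only [Nat.add_zero, List.map_cons, List.map_nil, Function.comp_apply]
  congr 1
  congr 1
  apply List.map_congr_left
  intro i _
  simp only [Function.comp_apply]
  congr 1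
  omega

theorem left_bd (q a N : ℕ) (ha : 0 < a) (hq : 3 ≤ q) :
    Bd {w : List ℕ | w.length ≤ N ∧ a ≤ w.length ∧ Blk q q a w ∧
      (∀ i, i < a - 1 → 2 ≤ w.getD i 0) ∧ w.getD (a - 1) 0 = 1} List.sum (LA (X : ℕ[X]) q a N) := by
  unfold LA
  have hp : ∀ h, Bd {z : List ℕ × List ℕ | CP q q ge2 ge2 h z.1 z.2}
      (fun z => z.1.sum + z.2.sum) (P11 (X : ℕ[X]) q h) := fun h =>
    PP_bd _ _ _ _ _ _ fun _ => rfl
  have hF : ∀ h, Bd {z : List ℕ × List ℕ | CP q q ge2 tt h z.1 z.2}
      (fun z => z.1.sum + z.2.sum) (F1 (X : ℕ[X]) q h) := fun h =>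
    PP_bd _ _ _ _ _ _ fun _ => rfl
  have hh : ∀ h, Bd {x | Self q q ge2 h x} List.sum (H1 (X : ℕ[X]) q h) := fun h =>
    self_bd h (hF _)
  refine Bd.sum _ (T := fun k => {w : List ℕ | w.length / a = k + 1 ∧ Blk q q a w ∧
      (∀ i, i < a - 1 → 2 ≤ w.getD i 0) ∧ w.getD (a - 1) 0 = 1}) (fun k _ => ?_) ?_
  · refine ((Bd.sum (range (a - 1)) (S := {w : List ℕ | w.length % a < a - 1 ∧ w.length / a = k + 1 ∧
      Blk q q a w ∧ (∀ i, i < a - 1 → 2 ≤ w.getD i 0) ∧ w.getD (a - 1) 0 = 1})
      (T := fun s => {w : List ℕ | w.length % a = s ∧ w.length / a = k + 1 ∧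
      Blk q q a w ∧ (∀ i, i < a - 1 → 2 ≤ w.getD i 0) ∧ w.getD (a - 1) 0 = 1}) (fun s hs => ?_) ?_).union
      (T := {w : List ℕ | w.length % a = a - 1 ∧ w.length / a = k + 1 ∧
      Blk q q a w ∧ (∀ i, i < a - 1 → 2 ≤ w.getD i 0) ∧ w.getD (a - 1) 0 = 1}) ?_).mono ?_
    · -- two special columns
      have hs : s < a - 1 := mem_range.1 hs
      refine ((pal_bd [] (hp (k + 2)) (hh (k + 2)) s).prod
        (PP_bd q q ge2 eq1 0 (k + 1) (fun h => absurd h (by omega)))).mul
        (pal_bd [] (hp (k + 1)) (hh (k + 1)) (a - 2 - s))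
        (fun z C' => undo a s (a * (k + 1) + s) z.1 (z.2.1 :: (C' ++ [z.2.2]))) ?_
      rintro w ⟨h1, h2, hw, h3, h4⟩
      have hl : w.length = a * (k + 1) + s := by
        have := Nat.div_add_mod w.length a
        rw [h1, h2] at this; exact this.symm
      have hcs : cols (fun i => w.getD i 0) a s (a - s) (k + 1) =
          col (fun i => w.getD i 0) a s (k + 1) :: (cols (fun i => w.getD i 0) a (s + 1) (a - 2 - s) (k + 1)
            ++ [col (fun i => w.getD i 0) a (a - 1) (k + 1)]) := by
        have := cols_cons_snoc (fun i => w.getD i 0) a s (a - 2 - s) (k + 1)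
        rw [show a - 2 - s + 2 = a - s by omega, show s + (a - 2 - s) + 1 = a - 1 by omega] at this
        exact this
      refine ⟨(cols (fun i => w.getD i 0) a 0 s (k + 2), (col (fun i => w.getD i 0) a s (k + 1),
        col (fun i => w.getD i 0) a (a - 1) (k + 1))), ⟨?_, ?_⟩,
        cols (fun i => w.getD i 0) a (s + 1) (a - 2 - s) (k + 1), ?_, ?_, ?_⟩
      · refine hw.palS (fun _ _ => by rw [hl]; simp; omega) (fun i hi _ => ?_)
        rw [Nat.zero_add]
        simp only [ge2, decide_eq_true_eq]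
        exact h3 i (by omega)
      · refine hw.cp (fun _ => ?_) (fun _ => ?_) (fun _ => ?_)
        · rw [hl, Nat.add_sub_cancel, Nat.mul_succ]; omega
        · simp only [ge2, decide_eq_true_eq]
          exact h3 s hs
        · simp only [eq1, decide_eq_true_eq]
          exact h4
      · refine hw.palS (fun _ _ => by rw [hl, Nat.add_sub_cancel, Nat.mul_succ]; omega) (fun i hi _ => ?_)
        simp only [ge2, decide_eq_true_eq]
        exact h3 _ (by omega)
      · show undo a s (a * (k + 1) + s) (cols (fun i => w.getD i 0) a 0 s (k + 1 + 1)) (_ :: (_ ++ [_])) = w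
        rw [← hcs]
        conv_rhs => rw [← undo_cols (show s < a by omega) hl]
        rw [hl]
      · have := cols_weight (show s < a by omega) hl
        rw [this, hcs]
        simp; ring
    · rintro w ⟨h1, h2⟩
      exact ⟨w.length % a, mem_range.2 h1, rfl, h2⟩
    · -- one special self-paired column
      have hh2 : Bd {x | Self q q eq1 (k + 1) x} List.sum (H2 (X : ℕ[X]) q (k + 1)) := by
        rcases Nat.eq_zero_or_pos k with rfl | hk
        · refine Bd.empty.mono ?_
          intro x hx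
          have hx : Self q q eq1 (0 + 1) x := hx
          have h1 := hx.t1 (by omega)
          have h2 := okn_iff.1 (hx.ok 0 (by omega))
          simp [eq1] at h1 h2
          omega
        · exact self_bd (k + 1) (PP_bd q q eq1 tt 0 ((k + 1) / 2) (fun h => absurd h (by omega)))
      refine (pal_bd [] (hp (k + 2)) (hh (k + 2)) (a - 1)).mul hh2
        (fun T y => undo a (a - 1) (a * (k + 1) + (a - 1)) T [y]) ?_
      rintro w ⟨h1, h2, hw, h3, h4⟩
      have hl : w.length = a * (k + 1) + (a - 1) := by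
        have := Nat.div_add_mod w.length a
        rw [h1, h2] at this; exact this.symm
      have hcs : cols (fun i => w.getD i 0) a (a - 1) (a - (a - 1)) (k + 1) =
          [col (fun i => w.getD i 0) a (a - 1) (k + 1)] := by
        rw [show a - (a - 1) = 1 by omega]; rfl
      refine ⟨cols (fun i => w.getD i 0) a 0 (a - 1) (k + 2), ?_,
        col (fun i => w.getD i 0) a (a - 1) (k + 1), ?_, ?_, ?_⟩
      · refine hw.palS (fun _ _ => by rw [hl]; simp; omega) (fun i hi _ => ?_)
        rw [Nat.zero_add]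
        simp only [ge2, decide_eq_true_eq]
        exact h3 i (by omega)
      · refine CP.self (hw.cp (fun _ => ?_) (fun _ => ?_) (fun _ => ?_))
        · rw [hl, Nat.add_sub_cancel, Nat.mul_succ]; omega
        · simp only [eq1, decide_eq_true_eq]; exact h4
        · simp only [eq1, decide_eq_true_eq]; exact h4
      · rw [← hcs]
        conv_rhs => rw [← undo_cols (show a - 1 < a by omega) hl]
        rw [hl]
      · have := cols_weight (show a - 1 < a by omega) hl
        rw [this, hcs]
        simp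
    · rintro w ⟨h1, h2⟩
      have := Nat.mod_lt w.length ha
      rcases Nat.lt_or_ge (w.length % a) (a - 1) with h | h
      · left; exact ⟨h, h1, h2⟩
      · right; exact ⟨by omega, h1, h2⟩
  · rintro w ⟨hN, hl, hw⟩
    have h1 : 1 ≤ w.length / a := (Nat.one_le_div_iff ha).2 hl
    refine ⟨w.length / a - 1, ?_, ?_, hw⟩
    · rw [mem_range]
      have := Nat.div_le_div_right (c := a) hN
      omega
    · omega

end Helper23.NS
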