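import Pool.Agent.Helper23.NS.Pal

namespace Helper23.NS
open Polynomial Finset

variable {α β γ : Type*}

theorem Bd.sum2 {ι κ : Type*} (I : Finset ι) (J : Finset κ) {S : Set α} {T : ι → κ → Set α}
    {wt : α → ℕ} {p : ι → κ → ℕ[X]} (h : ∀ i ∈ I, ∀ j ∈ J, Bd (T i j) wt (p i j))
    (hS : ∀ x ∈ S, ∃ i ∈ I, ∃ j ∈ J, x ∈ T i j) :
    Bd S wt (∑ i ∈ I, ∑ j ∈ J, p i j) := by
  refine Bd.sum I (T := fun i => ⋃ j ∈ J, T i j) (fun i hi => Bd.biUnion J (h i hi)) fun x hx => ?_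
  obtain ⟨i, hi, j, hj, hx⟩ := hS x hx
  refine ⟨i, hi, ?_⟩
  simp only [Set.mem_iUnion]
  exact ⟨j, hj, hx⟩

theorem Bd.ite {S : Set α} {wt : α → ℕ} {p : ℕ[X]} {c : Prop} [Decidable c]
    (h : c → Bd S wt p) : Bd {x | x ∈ S ∧ c} wt (if c then p else 0) := by
  by_cases hc : c
  · rw [if_pos hc]; exact (h hc).mono fun x hx => hx.1
  · rw [if_neg hc]
    exact Bd.empty.mono fun x hx => absurd hx.2 hc

/-- two columns `x` and `y` of height `k`, `x` read downwards, `y` being its partner -/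
structure CP (mx s : ℕ) (T1 T2 : ℕ → Bool) (k : ℕ) (x y : List ℕ) : Prop where
  lx : x.length = k
  ly : y.length = k
  ok : ∀ j, j < k → okn mx s (x.getD j 0) (y.getD (k - 1 - j) 0) = true
  cx : ∀ j, j + 1 < k → x.getD (j + 1) 0 ≤ x.getD j 0 + 1
  cy : ∀ j, j + 1 < k → y.getD (j + 1) 0 ≤ y.getD j 0 + 1
  t1 : 0 < k → T1 (x.getD 0 0) = true
  t2 : 0 < k → T2 (y.getD 0 0) = true

theorem okn_iff {mx s u v : ℕ} : okn mx s u v = true ↔ 1 ≤ u ∧ u ≤ mx ∧ 1 ≤ v ∧ v ≤ mx ∧ s ≤ u + v := by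
  simp [okn, and_assoc]

theorem snoc_of_length {n : ℕ} {C : List α} (h : C.length = n + 1) :
    ∃ C' y, C = C' ++ [y] ∧ C'.length = n := by
  have hD : C ≠ [] := by rintro rfl; simp at h
  refine ⟨C.dropLast, C.getLast hD, (List.dropLast_append_getLast hD).symm, ?_⟩
  simp [h]

theorem cons_of_length {n : ℕ} {C : List α} (h : C.length = n + 1) :
    ∃ x C', C = x :: C' ∧ C'.length = n := by
  match C, h with
  | x :: D, h => exact ⟨x, D, rfl, by simpa using h⟩

theorem pv_bd (mx s : ℕ) (T1 : ℕ → Bool) : ∀ k u v,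
    Bd {z : List ℕ × List ℕ | CP mx s T1 tt (k + 1) z.1 z.2 ∧ z.1.getD k 0 = u ∧ z.2.getD 0 0 = v}
      (fun z => z.1.sum + z.2.sum) (pv (X : ℕ[X]) mx s T1 k u v)
  | 0, u, v => by
    have : pv (X : ℕ[X]) mx s T1 0 u v = if (okn mx s u v && T1 u) = true then X ^ (u + v) else 0 := rfl
    rw [this]
    refine (Bd.ite (S := {z : List ℕ × List ℕ | z = ([u], [v])}) fun _ => ?_).mono ?_
    · exact Bd.single' ([u], [v]) _ (u + v) fun y hy => by
        have hy' : y = ([u], [v]) := hy; subst hy'; simp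
    · rintro ⟨x, y⟩ ⟨h, h1, h2⟩
      obtain ⟨x0, rfl⟩ := List.length_eq_one_iff.1 h.lx
      obtain ⟨y0, rfl⟩ := List.length_eq_one_iff.1 h.ly
      have hok := h.ok 0 (by omega)
      have ht := h.t1 (by omega)
      simp at h1 h2 hok ht
      subst h1; subst h2
      simp [hok, ht]
  | k + 1, u', v' => by
    have : pv (X : ℕ[X]) mx s T1 (k + 1) u' v' = if okn mx s u' v' = true then
      X ^ (u' + v') * ∑ u ∈ range (mx + 1), ∑ v ∈ range (mx + 1),
        (if (decide (u' ≤ u + 1) && decide (v ≤ v' + 1)) = true then pv X mx s T1 k u v else 0) else 0 := rfl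
    rw [this]
    have key : Bd {z : List ℕ × List ℕ | ∃ u ∈ range (mx + 1), ∃ v ∈ range (mx + 1), z ∈
        {z | z ∈ {z : List ℕ × List ℕ | CP mx s T1 tt (k + 1) z.1 z.2 ∧ z.1.getD k 0 = u ∧
          z.2.getD 0 0 = v} ∧ (decide (u' ≤ u + 1) && decide (v ≤ v' + 1)) = true}}
        (fun z => z.1.sum + z.2.sum) (∑ u ∈ range (mx + 1), ∑ v ∈ range (mx + 1),
        (if (decide (u' ≤ u + 1) && decide (v ≤ v' + 1)) = true then pv X mx s T1 k u v else 0)) :=
      Bd.sum2 _ _ (fun u _ v _ => Bd.ite fun _ => pv_bd mx s T1 k u v) fun x hx => hx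
    refine (Bd.ite (S := {z : List ℕ × List ℕ | CP mx s T1 tt (k + 1 + 1) z.1 z.2 ∧
      z.1.getD (k + 1) 0 = u' ∧ z.2.getD 0 0 = v'}) fun _ => ?_).mono ?_
    · refine key.shift (u' + v') (fun z => (z.1 ++ [u'], v' :: z.2)) ?_
      rintro ⟨x, y⟩ ⟨h, h1, h2⟩
      obtain ⟨x', u1, rfl, hx'⟩ := snoc_of_length h.lx
      obtain ⟨v1, y', rfl, hy'⟩ := cons_of_length h.ly
      have e1 : ∀ j, j < k + 1 → (x' ++ [u1]).getD j 0 = x'.getD j 0 := fun j hj =>
        List.getD_append _ _ _ _ (by omega)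
      have e2 : (x' ++ [u1]).getD (k + 1) 0 = u1 := by
        rw [List.getD_append_right _ _ _ _ (by omega)]; simp [hx']
      have e3 : ∀ j, (v1 :: y').getD (j + 1) 0 = y'.getD j 0 := fun j => List.getD_cons_succ
      simp only [e2] at h1
      simp only [List.getD_cons_zero] at h2
      subst h1; subst h2
      refine ⟨(x', y'), ?_, rfl, ?_⟩
      · have hcx := h.cx k (by omega)
        have hcy := h.cy 0 (by omega)
        rw [e2, e1 k (by omega)] at hcx
        rw [e3] at hcy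
        simp only [List.getD_cons_zero] at hcy
        have hokk := h.ok k (by omega)
        have hok0 := h.ok 0 (by omega)
        rw [e1 k (by omega), show k + 1 + 1 - 1 - k = 0 + 1 by omega, e3] at hokk
        have hb := okn_iff.1 hokk
        have hoky : okn mx s (x'.getD k 0) (y'.getD 0 0) = true := hokk
        refine ⟨x'.getD k 0, mem_range.2 (by omega), y'.getD 0 0, mem_range.2 (by omega), ⟨?_, rfl, rfl⟩, ?_⟩
        · refine ⟨hx', hy', fun j hj => ?_, fun j hj => ?_, fun j hj => ?_, fun _ => ?_, fun _ => rfl⟩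
          · have := h.ok j (by omega)
            rwa [e1 j hj, show k + 1 + 1 - 1 - j = (k + 1 - 1 - j) + 1 by omega, e3] at this
          · have := h.cx j (by omega)
            rwa [e1 j (by omega), e1 (j + 1) (by omega)] at this
          · have := h.cy (j + 1) (by omega)
            rwa [e3, e3] at this
          · have := h.t1 (by omega)
            rwa [e1 0 (by omega)] at this
        · simp only [Bool.and_eq_true, decide_eq_true_eq]
          exact ⟨hcx, hcy⟩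
      · simp; ring
    · rintro ⟨x, y⟩ ⟨h, h1, h2⟩
      refine ⟨⟨h, h1, h2⟩, ?_⟩
      have := h.ok (k + 1) (by omega)
      simp only at h1 h2
      rwa [h1, show k + 1 + 1 - 1 - (k + 1) = 0 by omega, h2] at this

theorem PP_bd (mx s : ℕ) (T1 T2 : ℕ → Bool) (z : ℕ[X]) (k : ℕ) (hz : k = 0 → z = 1) :
    Bd {c : List ℕ × List ℕ | CP mx s T1 T2 k c.1 c.2} (fun c => c.1.sum + c.2.sum)
      (PP (X : ℕ[X]) mx s T1 T2 z k) := by
  match k with
  | 0 =>
    have : PP (X : ℕ[X]) mx s T1 T2 z 0 = X ^ 0 := by simp [PP, hz rfl]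
    rw [this]
    refine Bd.single' ([], []) _ 0 ?_
    rintro ⟨x, y⟩ h
    have h1 := List.length_eq_zero_iff.1 h.lx
    have h2 := List.length_eq_zero_iff.1 h.ly
    simp only at h1 h2
    subst h1; subst h2; simp
  | k + 1 =>
    have : PP (X : ℕ[X]) mx s T1 T2 z (k + 1) = ∑ u ∈ range (mx + 1), ∑ v ∈ range (mx + 1),
      (if T2 v = true then pv X mx s T1 k u v else 0) := rfl
    rw [this]
    refine Bd.sum2 _ _ (fun u _ v _ => Bd.ite fun _ => pv_bd mx s T1 k u v) ?_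
    rintro ⟨x, y⟩ h
    have h' : CP mx s T1 T2 (k + 1) x y := h
    have hok := okn_iff.1 (h'.ok k (by omega))
    rw [show k + 1 - 1 - k = 0 by omega] at hok
    refine ⟨x.getD k 0, mem_range.2 (by omega), y.getD 0 0, mem_range.2 (by omega),
      ⟨⟨⟨h'.lx, h'.ly, h'.ok, h'.cx, h'.cy, h'.t1, fun _ => rfl⟩, rfl, rfl⟩, h'.t2 (by omega)⟩⟩

end Helper23.NS
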