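import Mathlib

/-! Shared definitions for MP_56bc24_co (`n_{g+1} > n_g` for numerical semigroups). -/

namespace Helper23.NS

/-- numerical semigroups of genus `g` -/
def nsg (g : ℕ) : Set (Set ℕ) :=
  {S | 0 ∈ S ∧ (∀ a ∈ S, ∀ b ∈ S, a + b ∈ S) ∧ Sᶜ.Finite ∧ Sᶜ.ncard = g}

/-- Kunz words: `w[i]` is the Kunz coordinate of the residue `i+1` modulo `w.length+1`. -/
structure IsKunz (w : List ℕ) : Prop where
  pos : ∀ x ∈ w, 1 ≤ x
  k1 : ∀ i j, i + j + 1 < w.length → w.getD (i + j + 1) 0 ≤ w.getD i 0 + w.getD j 0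
  k2 : ∀ i j, i < w.length → j < w.length → w.length ≤ i + j →
    w.getD (i + j - w.length) 0 ≤ w.getD i 0 + w.getD j 0 + 1

/-- Kunz words of sum `g` -/
def kword (g : ℕ) : Set (List ℕ) := {w | IsKunz w ∧ w.sum = g}

/-- Kunz words with all letters at most 3 (then `k2` is automatic) -/
structure IsT (w : List ℕ) : Prop where
  let13 : ∀ x ∈ w, 1 ≤ x ∧ x ≤ 3
  k1 : ∀ i j, i + j + 1 < w.length → w.getD (i + j + 1) 0 ≤ w.getD i 0 + w.getD j 0

def tword (g : ℕ) : Set (List ℕ) := {w | IsT w ∧ w.sum = g}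

/-- Kunz words with some letter at least 4 -/
def rword (g : ℕ) : Set (List ℕ) := {w | IsKunz w ∧ w.sum = g ∧ ∃ x ∈ w, 4 ≤ x}

end Helper23.NS
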