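import Pool.Agent.Helper23.NS.Assembly
import Pool.Agent.Helper6.NS.Mass
import Pool.Agent.Helper8.NS.C
import Pool.Agent.Helper8.NS.Kunz
import Pool.Agent.Helper8.NS.TWord

/-! The final theorem. -/

namespace Helper23.NS
open Polynomial
open Helper8.NS (C4 C56 tlo tlo_table tlo_rec tlo_le)

theorem big1 : (8000 : ℕ) * 2000 ^ 640 < 2 ^ 448 * 1253 ^ 640 := by decide +kernel

theorem tlo640 : (8000 : ℕ) * 2000 ^ (640 + 1) < tlo 640 * 1253 ^ (640 + 1) := by decide +kernel

theorem coeff_lt_B {p : ℕ[X]} (hp : ∀ j, p.coeff j ≤ (ET (X : ℕ[X]) 640).coeff j) :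
    ∀ j ≤ 640, p.coeff j < 2 ^ 448 := by
  intro j hj
  have h1 := ET_coeff_le (y := 1253 / 2000) (by norm_num) 640 (Helper6.NS.mass 640) j
  have h2 : ((p.coeff j : ℕ) : ℝ) * (1253 / 2000) ^ j ≤ 8000 :=
    (mul_le_mul_of_nonneg_right (by exact_mod_cast hp j) (by positivity)).trans h1
  have h3 : ((1253 : ℝ) / 2000) ^ 640 ≤ (1253 / 2000) ^ j :=
    pow_le_pow_of_le_one (by norm_num) (by norm_num) hj
  by_contra hcon
  push Not at hcon
  have h4 : ((2 : ℝ) ^ 448) * (1253 / 2000) ^ 640 ≤ 8000 := by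
    refine le_trans ?_ h2
    exact mul_le_mul (by exact_mod_cast hcon) h3 (by positivity) (by positivity)
  rw [div_pow, ← mul_div_assoc, div_le_iff₀ (by positivity)] at h4
  have h5 : (2 : ℕ) ^ 448 * 1253 ^ 640 ≤ 8000 * 2000 ^ 640 := by exact_mod_cast h4
  exact absurd big1 (not_lt.2 h5)

theorem tlo_pos : ∀ g, 0 < tlo g := by
  intro g
  induction g using Nat.strong_induction_on with
  | _ g ih =>
    rcases Nat.lt_or_ge g 25 with h | h
    · have : ∀ g < 25, 0 < Helper8.NS.tl25.getD g 0 := by decide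
      rw [tlo_table g h]; exact this g h
    · obtain ⟨m, rfl⟩ : ∃ m, g = m + 2 := ⟨g - 2, by omega⟩
      rw [tlo_rec m (by omega)]
      have := ih m (by omega)
      omega

theorem coeff_ET (g N : ℕ) : (ET (X : ℕ[X]) N).coeff g =
    (EE (X : ℕ[X]) 4 N).coeff g + (EE (X : ℕ[X]) 5 N + E6 (X : ℕ[X]) N).coeff g := by
  unfold ET; rw [coeff_add, coeff_add, coeff_add, add_assoc]

theorem coeff_lt_tlo (g : ℕ) (h1 : 1 ≤ g) (h2 : g ≤ 640) : (ET (X : ℕ[X]) 640).coeff g < tlo (g - 1) := by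
  have c4 := C4 tlo tlo_table tlo_rec
    (coeff_lt_B fun j => (Nat.le_add_right _ _).trans_eq (coeff_ET j 640).symm) g h1 h2
  have c56 := C56 tlo tlo_table tlo_rec
    (coeff_lt_B fun j => (Nat.le_add_left _ _).trans_eq (coeff_ET j 640).symm) g h1 h2
  have h3 := tlo_pos (g - 1)
  rw [coeff_ET]
  generalize (EE (X : ℕ[X]) 4 640).coeff g = A at *
  generalize (EE (X : ℕ[X]) 5 640 + E6 (X : ℕ[X]) 640).coeff g = B at *
  generalize tlo (g - 1) = T at *
  omega

theorem tail640 : ∀ g, 640 ≤ g → 8000 * 2000 ^ (g + 1) < tlo g * 1253 ^ (g + 1) := by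
  have e24 : tlo 24 = 237936 := tlo_table 24 (by omega)
  have e23 : tlo 23 = 143317 := tlo_table 23 (by omega)
  have e25 : tlo (24 + 1) = 237936 + 143317 := by
    rw [show 24 + 1 = 23 + 2 by norm_num, tlo_rec 23 le_rfl, e23]; rw [e24]
  refine tail_bound tlo 24 640 (by omega) (fun g hg => tlo_rec g (by omega)) ?_ ?_ tlo640
  · rw [e25, e24]; norm_num
  · rw [e25, e24]; norm_num

theorem rword_lt_tlo : ∀ g, 1 ≤ g → (rword g).ncard < tlo (g - 1) :=
  rword_lt tlo 640 tail640 coeff_lt_tlo Helper6.NS.mass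

theorem main : ∀ g, 1 ≤ g → (nsg g).ncard < (nsg (g + 1)).ncard :=
  assemble tlo Helper8.NS.nsg_ncard Helper8.NS.kword_finite (fun _ h => Helper8.NS.isKunz_of_isT h)
    (fun g => (Helper8.NS.kword_eq g).subset) Helper8.NS.tword_rec tlo_le rword_lt_tlo

theorem nsg_finite (g : ℕ) : (nsg g).Finite := by
  refine Set.finite_of_ncard_pos ?_
  rw [Helper8.NS.nsg_ncard, Set.ncard_pos (Helper8.NS.kword_finite g)]
  refine ⟨List.replicate g 1, ⟨fun x hx => ?_, fun i j hij => ?_, fun i j hi hj hij => ?_⟩, by simp⟩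
  · rw [List.eq_of_mem_replicate hx]
  all_goals
    rw [List.length_replicate] at *
    have h1 : ∀ k, k < g → (List.replicate g 1).getD k 0 = 1 := fun k hk => by
      rw [List.getD_eq_getElem _ _ (by simpa using hk)]; simp
    rw [h1 _ (by omega), h1 _ (by omega), h1 _ (by omega)]
    omega

end Helper23.NS
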