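import Pool.Agent.Helper23.NS.Outer

namespace Helper23.NS
open Polynomial Finset

/-- the last occurrence of `q` -/
theorem exists_last (q : ℕ) : ∀ w : List ℕ, q ∈ w → ∃ L R, w = L ++ q :: R ∧ q ∉ R
  | [], h => by simp at h
  | x :: w, h => by
    by_cases hw : q ∈ w
    · obtain ⟨L, R, rfl, hR⟩ := exists_last q w hw
      exact ⟨x :: L, R, rfl, hR⟩
    · have : q = x := by simpa [hw] using h
      subst this
      exact ⟨[], w, rfl, hw⟩

theorem getD_left {L : List ℕ} {q : ℕ} {R : List ℕ} {i : ℕ} (hi : i < L.length) :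
    (L ++ q :: R).getD i 0 = L.getD i 0 := List.getD_append _ _ _ _ hi

theorem getD_center {L : List ℕ} {q : ℕ} {R : List ℕ} : (L ++ q :: R).getD L.length 0 = q := by
  rw [List.getD_append_right _ _ _ _ le_rfl]; simp

theorem getD_right {L : List ℕ} {q : ℕ} {R : List ℕ} (i : ℕ) :
    (L ++ q :: R).getD (L.length + 1 + i) 0 = R.getD i 0 := by
  rw [List.getD_append_right _ _ _ _ (by omega)]
  rw [show L.length + 1 + i - L.length = i + 1 by omega, List.getD_cons_succ]

theorem getD_mem {L : List ℕ} {i : ℕ} (hi : i < L.length) : L.getD i 0 ∈ L := by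
  rw [List.getD_eq_getElem _ _ hi]; exact List.getElem_mem hi

/-- words with maximum `q` -/
def RQ (q : ℕ) : Set (List ℕ) := {w | IsKunz w ∧ (∀ x ∈ w, x ≤ q) ∧ q ∈ w}

/-- the basic facts on the decomposition -/
structure Dec (q : ℕ) (L R : List ℕ) : Prop where
  lL : ∀ i, i < L.length → okn q q (L.getD i 0) (L.getD (L.length - 1 - i) 0) = true
  lR : ∀ i, i < R.length → okn (q - 1) (q - 1) (R.getD i 0) (R.getD (R.length - 1 - i) 0) = true
  ch : ∀ a, 0 < a → (L ++ q :: R).getD (a - 1) 0 = 1 → ∀ j, j + a < (L ++ q :: R).length →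
    (L ++ q :: R).getD (j + a) 0 ≤ (L ++ q :: R).getD j 0 + 1

theorem dec_of_mem {q : ℕ} {w : List ℕ} (hw : w ∈ RQ q) :
    ∃ L R, w = L ++ q :: R ∧ Dec q L R := by
  obtain ⟨hk, hle, hq⟩ := hw
  obtain ⟨L, R, rfl, hR⟩ := exists_last q w hq
  have hlen : (L ++ q :: R).length = L.length + 1 + R.length := by simp; omega
  refine ⟨L, R, rfl, ?_, ?_, ?_⟩
  · intro i hi
    have h1 := hk.k1 i (L.length - 1 - i) (by rw [hlen]; omega)
    rw [show i + (L.length - 1 - i) + 1 = L.length by omega, getD_center, getD_left hi,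
      getD_left (by omega)] at h1
    have m1 := getD_mem hi
    have m2 := getD_mem (L := L) (i := L.length - 1 - i) (by omega)
    exact okn_iff.2 ⟨hk.pos _ (List.mem_append_left _ m1), hle _ (List.mem_append_left _ m1),
      hk.pos _ (List.mem_append_left _ m2), hle _ (List.mem_append_left _ m2), h1⟩
  · intro i hi
    have h1 := hk.k2 (L.length + 1 + i) (L.length + 1 + (R.length - 1 - i)) (by rw [hlen]; omega)
      (by rw [hlen]; omega) (by rw [hlen]; omega)
    rw [hlen, show L.length + 1 + i + (L.length + 1 + (R.length - 1 - i)) - (L.length + 1 + R.length)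
      = L.length by omega, getD_center, getD_right, getD_right] at h1
    have m1 := getD_mem hi
    have m2 := getD_mem (L := R) (i := R.length - 1 - i) (by omega)
    have key : ∀ x ∈ R, 1 ≤ x ∧ x ≤ q - 1 := by
      intro x hx
      have h1 := hk.pos x (List.mem_append_right _ (List.mem_cons_of_mem _ hx))
      have h2 := hle x (List.mem_append_right _ (List.mem_cons_of_mem _ hx))
      have h3 : x ≠ q := fun h => hR (h ▸ hx)
      exact ⟨h1, by omega⟩
    exact okn_iff.2 ⟨(key _ m1).1, (key _ m1).2, (key _ m2).1, (key _ m2).2, by omega⟩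
  · intro a ha h1 j hj
    have := hk.k1 j (a - 1) (by omega)
    rw [h1, show j + (a - 1) + 1 = j + a by omega] at this
    exact this

/-- pairs in the left and right part -/
theorem Dec.half {q : ℕ} {L R : List ℕ} (h : Dec q L R) :
    L ∈ PalS 0 (fun x y => okn q q x y = true) (fun x => 1 ≤ x ∧ x ≤ q ∧ q ≤ 2 * x) L.length ∧
    R ∈ PalS 0 (fun x y => okn (q - 1) (q - 1) x y = true)
      (fun x => 1 ≤ x ∧ x ≤ q - 1 ∧ q - 1 ≤ 2 * x) R.length := by
  refine ⟨⟨rfl, fun i hi => h.lL i (by omega), fun i hi => ?_⟩,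
    ⟨rfl, fun i hi => h.lR i (by omega), fun i hi => ?_⟩⟩
  · have := h.lL i (by omega)
    rw [show L.length - 1 - i = i by omega, okn_iff] at this
    omega
  · have := h.lR i (by omega)
    rw [show R.length - 1 - i = i by omega, okn_iff] at this
    omega

/-- `q ≥ 6`: pairs only -/
theorem big_bd (q N : ℕ) : Bd {w : List ℕ | w ∈ RQ q ∧ w.length ≤ N} List.sum
    ((X : ℕ[X]) ^ q * (AA X q N * AA X (q - 1) N)) := by
  have h1 := half_bd (Q := fun x y => okn q q x y = true)
    (Q' := fun x => 1 ≤ x ∧ x ≤ q ∧ q ≤ 2 * x) (pp_bd q) (mid_bd' q) N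
  have h2 := half_bd (Q := fun x y => okn (q - 1) (q - 1) x y = true)
    (Q' := fun x => 1 ≤ x ∧ x ≤ q - 1 ∧ q - 1 ≤ 2 * x) (pp_bd (q - 1)) (mid_bd' (q - 1)) N
  refine (h1.prod h2).shift q (fun z => z.1 ++ q :: z.2) ?_
  rintro w ⟨hw, hN⟩
  obtain ⟨L, R, rfl, hd⟩ := dec_of_mem hw
  obtain ⟨hL, hR⟩ := hd.half
  simp only [List.length_append, List.length_cons] at hN
  have h3 : L.length ≤ N := by omega
  have h4 : R.length ≤ N := by omega
  exact ⟨(L, R), ⟨⟨h3, hL⟩, ⟨h4, hR⟩⟩, rfl, by simp; ring⟩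

/-- the pairs `(L,R)` for the chain bound -/
theorem pair_bd (q N : ℕ) (hq : 4 ≤ q) :
    Bd {z : List ℕ × List ℕ | Dec q z.1 z.2 ∧ z.1.length + z.2.length ≤ N}
      (fun z => z.1.sum + z.2.sum)
      (∑ a ∈ range (N + 1), (LA (X : ℕ[X]) q (a + 1) N + lb X q (a + 1)) * RA X q (a + 1) N
        + Bsh X q N) := by
  -- case A
  let SL : ℕ → Set (List ℕ) := fun a => {w : List ℕ | w.length ≤ N ∧ a ≤ w.length ∧ Blk q q a w ∧
      (∀ i, i < a - 1 → 2 ≤ w.getD i 0) ∧ w.getD (a - 1) 0 = 1}
  let SR : ℕ → Set (List ℕ) := fun a => {w : List ℕ | w.length ≤ N ∧ Blk (q - 1) (q - 1) a w}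
  have hA : ∀ a, 0 < a → Bd (SL a ×ˢ SR a) (fun z => z.1.sum + z.2.sum)
      (LA (X : ℕ[X]) q a N * RA X q a N) := fun a ha =>
    (left_bd q a N ha (by omega)).prod (right_bd q a N ha)
  have hpal : ∀ P, Bd (PalS 0 (Qlm q) (Qlmid q) P) List.sum (pal P (lm (X : ℕ[X]) q) (lmid X q)) := by
    intro P
    have := pal_bd 0 (wt := fun x => x) (lm_bd q) (lmid_bd q) P
    simpa using this
  -- case B1
  let SB : ℕ → ℕ → Set (List ℕ × List ℕ) := fun a P =>
    PalS 0 (Qlm q) (Qlmid q) P ×ˢ Out q (SR a) (a - 2 - P)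
  have hB : ∀ a, 0 < a → Bd {z | ∃ P ∈ range (a - 1), z ∈ SB a P} (fun z => z.1.sum + z.2.sum)
      (lb (X : ℕ[X]) q a * RA X q a N) := by
    intro a ha
    have e : lb (X : ℕ[X]) q a * RA X q a N = ∑ P ∈ range (a - 1), pal P (lm (X : ℕ[X]) q) (lmid X q) *
        (ro X q ^ (a - 2 - P) * (ra X q * RA X q a N)) := by
      unfold lb
      rw [mul_assoc, mul_comm, mul_assoc, Finset.sum_mul]
      refine Finset.sum_congr rfl fun P _ => by ring
    rw [e]
    exact Bd.sum _ (fun P _ => (hpal P).prod (out_bd q (right_bd q a N ha) (a - 2 - P))) fun x hx => hx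
  -- case B2
  let SC : Set (List ℕ × List ℕ) := {L | L.length ≤ N ∧ L ∈ PalS 0 (Qlm q) (Qlmid q) L.length} ×ˢ
    {C : List ℕ | C.length ≤ N ∧ C ∈ PalS 0 (Qro q) (Qrmid q) C.length}
  have hC : Bd SC (fun z => z.1.sum + z.2.sum) (Bsh (X : ℕ[X]) q N) := by
    unfold Bsh
    rw [mul_assoc]
    refine Bd.prod ?_ (half_bd (ro_bd q) (rmid_bd q) N)
    refine Bd.sum _ (T := fun P => PalS 0 (Qlm q) (Qlmid q) P) (fun P _ => hpal P) ?_
    rintro L ⟨h1, h2⟩
    exact ⟨L.length, mem_range.2 (by omega), h2⟩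
  have hAB : Bd {z | ∃ a ∈ range (N + 1), z ∈ (SL (a + 1) ×ˢ SR (a + 1)) ∪
      {z | ∃ P ∈ range (a + 1 - 1), z ∈ SB (a + 1) P}} (fun z => z.1.sum + z.2.sum)
      (∑ a ∈ range (N + 1), (LA (X : ℕ[X]) q (a + 1) N + lb X q (a + 1)) * RA X q (a + 1) N) := by
    refine Bd.sum _ (fun a _ => ?_) fun x hx => hx
    rw [add_mul]
    exact (hA (a + 1) (by omega)).union (hB (a + 1) (by omega))
  refine (hAB.union hC).mono ?_
  rintro ⟨L, R⟩ ⟨hd, hN⟩
  have hd : Dec q L R := hd
  have hN : L.length + R.length ≤ N := hN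
  have hlen : (L ++ q :: R).length = L.length + 1 + R.length := by simp; omega
  have hLp : ∀ i, i < L.length → 1 ≤ L.getD i 0 ∧ L.getD i 0 ≤ q := fun i hi => by
    have := okn_iff.1 (hd.lL i hi); omega
  have hRp : ∀ i, i < R.length → 1 ≤ R.getD i 0 ∧ R.getD i 0 ≤ q - 1 := fun i hi => by
    have := okn_iff.1 (hd.lR i hi); omega
  by_cases h1 : ∃ i, i < L.length ∧ L.getD i 0 = 1
  · -- case A
    classical
    left
    let a := Nat.find h1
    obtain ⟨ha1, ha2⟩ := Nat.find_spec h1
    have hmin : ∀ i, i < a → 2 ≤ L.getD i 0 := fun i hi => by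
      have := Nat.find_min h1 hi
      have h2 := hLp i (by omega)
      have : ¬ (L.getD i 0 = 1) := fun h => this ⟨by omega, h⟩
      omega
    have hone : (L ++ q :: R).getD (a + 1 - 1) 0 = 1 := by
      rw [Nat.add_sub_cancel, getD_left ha1]; exact ha2
    have hch := hd.ch (a + 1) (by omega) hone
    refine ⟨a, mem_range.2 (by omega), Or.inl ⟨⟨by show L.length ≤ N; omega, ha1, ⟨hd.lL, ?_⟩, ?_, ?_⟩,
      ⟨by show R.length ≤ N; omega, ⟨hd.lR, ?_⟩⟩⟩⟩
    · intro i hi
      simp only at hi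
      have := hch i (by omega)
      rwa [getD_left hi, getD_left (by omega)] at this
    · intro i hi; exact hmin i (by omega)
    · show L.getD (a + 1 - 1) 0 = 1
      rw [Nat.add_sub_cancel]; exact ha2
    · intro i hi
      simp only at hi
      have := hch (L.length + 1 + i) (by omega)
      rwa [add_assoc (L.length + 1) i, getD_right, getD_right] at this
  · have hL2 : ∀ i, i < L.length → 2 ≤ L.getD i 0 := fun i hi => by
      have h2 := hLp i hi
      have : ¬ (L.getD i 0 = 1) := fun h => h1 ⟨i, hi, h⟩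
      omega
    have hLpal : L ∈ PalS 0 (Qlm q) (Qlmid q) L.length := by
      refine ⟨rfl, fun i hi => ?_, fun i hi => ?_⟩
      · have h3 := okn_iff.1 (hd.lL i (by omega))
        exact ⟨hL2 i (by omega), h3.2.1, hL2 _ (by omega), h3.2.2.2.1, h3.2.2.2.2⟩
      · have h3 := okn_iff.1 (hd.lL i (by omega))
        rw [show L.length - 1 - i = i by omega] at h3
        exact ⟨hL2 i (by omega), h3.2.1, by omega⟩
    by_cases h2 : ∃ i, 2 * (i + 1) ≤ R.length ∧ R.getD i 0 = 1
    · -- case B1
      classical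
      left
      let β := Nat.find h2
      obtain ⟨hb1, hb2⟩ := Nat.find_spec h2
      have hb1 : 2 * (β + 1) ≤ R.length := hb1
      have hmin : ∀ i, i < β → 2 ≤ R.getD i 0 := fun i hi => by
        have := Nat.find_min h2 hi
        have h2 := hRp i (by omega)
        have : ¬ (R.getD i 0 = 1) := fun h => this ⟨by omega, h⟩
        omega
      have hone : (L ++ q :: R).getD (L.length + β + 2 - 1) 0 = 1 := by
        rw [show L.length + β + 2 - 1 = L.length + 1 + β by omega, getD_right]; exact hb2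
      have hch := hd.ch (L.length + β + 2) (by omega) hone
      refine ⟨L.length + β + 1, mem_range.2 (by omega), Or.inr ⟨L.length, mem_range.2 (by omega), ?_⟩⟩
      refine ⟨hLpal, ?_⟩
      rw [show L.length + β + 1 + 1 - 2 - L.length = β by omega]
      refine mem_out hq β R hb1 (by omega) ⟨hd.lR, ?_⟩ hmin hb2
      intro i hi
      have := hch (L.length + 1 + i) (by omega)
      rw [add_assoc (L.length + 1) i, getD_right, getD_right] at this
      exact this
    · -- case B2
      right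
      have hRpal : R ∈ PalS 0 (Qro q) (Qrmid q) R.length := by
        refine ⟨rfl, fun i hi => ?_, fun i hi => ?_⟩
        · have h3 := okn_iff.1 (hd.lR i (by omega))
          have h4 : ¬ (R.getD i 0 = 1) := fun h => h2 ⟨i, by omega, h⟩
          exact ⟨by omega, by omega, h3.2.2.1, by omega, h3.2.2.2.2⟩
        · have h3 := okn_iff.1 (hd.lR i (by omega))
          rw [show R.length - 1 - i = i by omega] at h3
          exact ⟨by omega, by omega, by omega⟩
      exact ⟨⟨by show L.length ≤ N; omega, hLpal⟩, ⟨by show R.length ≤ N; omega, hRpal⟩⟩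

theorem chain_bd (q N : ℕ) (hq : 4 ≤ q) : Bd {w : List ℕ | w ∈ RQ q ∧ w.length ≤ N} List.sum
    (EE (X : ℕ[X]) q N) := by
  unfold EE
  refine (pair_bd q N hq).shift q (fun z => z.1 ++ q :: z.2) ?_
  rintro w ⟨hw, hN⟩
  obtain ⟨L, R, rfl, hd⟩ := dec_of_mem hw
  simp only [List.length_append, List.length_cons] at hN
  exact ⟨(L, R), ⟨hd, by show L.length + R.length ≤ N; omega⟩, rfl, by simp; ring⟩

/-- all words with a letter at least 4 -/
theorem rword_bd (N : ℕ) : Bd {w : List ℕ | IsKunz w ∧ w.sum ≤ N ∧ ∃ x ∈ w, 4 ≤ x} List.sum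
    (ET (X : ℕ[X]) N) := by
  unfold ET E6
  refine ((((chain_bd 4 N le_rfl).union (chain_bd 5 N (by omega)))).union
    (Bd.sum (Icc 6 N) (S := {w : List ℕ | ∃ q, 6 ≤ q ∧ w ∈ RQ q ∧ w.sum ≤ N})
      (fun q _ => by rw [mul_assoc]; exact big_bd q N) ?_)).mono ?_
  · rintro w ⟨q, h6, hw, hs⟩
    have hlen : w.length ≤ w.sum := by
      have : ∀ l : List ℕ, (∀ x ∈ l, 1 ≤ x) → l.length ≤ l.sum := by
        intro l
        induction l with
        | nil => simp
        | cons x l ih =>
          intro h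
          have h1 := h x (by simp)
          have h2 := ih fun y hy => h y (by simp [hy])
          simp; omega
      exact this w hw.1.pos
    have hq : q ≤ w.sum := List.single_le_sum (by simp) q hw.2.2
    exact ⟨q, Finset.mem_Icc.2 ⟨h6, by omega⟩, hw, by omega⟩
  · rintro w ⟨hk, hs, x, hx, h4⟩
    have hlen : w.length ≤ w.sum := by
      have : ∀ l : List ℕ, (∀ x ∈ l, 1 ≤ x) → l.length ≤ l.sum := by
        intro l
        induction l with
        | nil => simp
        | cons x l ih =>
          intro h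
          have h1 := h x (by simp)
          have h2 := ih fun y hy => h y (by simp [hy])
          simp; omega
      exact this w hk.pos
    -- the maximum
    obtain ⟨q, hq, hmax⟩ : ∃ q ∈ w, ∀ y ∈ w, y ≤ q := by
      have : ∀ l : List ℕ, l ≠ [] → ∃ q ∈ l, ∀ y ∈ l, y ≤ q := by
        intro l
        induction l with
        | nil => intro h; exact absurd rfl h
        | cons z l ih =>
          intro _
          by_cases hl : l = []
          · subst hl; exact ⟨z, by simp, by simp⟩
          · obtain ⟨q, hq, hm⟩ := ih hl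
            rcases Nat.le_total z q with h | h
            · exact ⟨q, by simp [hq], fun y hy => by
                rcases List.mem_cons.1 hy with rfl | hy
                · exact h
                · exact hm y hy⟩
            · exact ⟨z, by simp, fun y hy => by
                rcases List.mem_cons.1 hy with rfl | hy
                · exact le_rfl
                · exact (hm y hy).trans h⟩
      exact this w (by rintro rfl; simp at hx)
    have h4q : 4 ≤ q := h4.trans (hmax x hx)
    have hR : w ∈ RQ q := ⟨hk, hmax, hq⟩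
    rcases Nat.lt_or_ge q 6 with h | h
    · left
      rcases Nat.lt_or_ge q 5 with h' | h'
      · left; obtain rfl : q = 4 := by omega
        exact ⟨hR, by omega⟩
      · right; obtain rfl : q = 5 := by omega
        exact ⟨hR, by omega⟩
    · right; exact ⟨q, h, hR, hs⟩

/-- MODULE E -/
theorem rword_ncard_le {g N : ℕ} (hg : g ≤ N) : (rword g).ncard ≤ (ET (X : ℕ[X]) N).coeff g :=
  (rword_bd N).ncard_le g fun _ hw => ⟨⟨hw.1, hw.2.1.trans_le hg, hw.2.2⟩, hw.2.1⟩

end Helper23.NS
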