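import Pool.Agent.Helper23.NS.Self

namespace Helper23.NS
open Polynomial Finset

/-- the column of height `h` starting at `c` -/
def col (f : ℕ → ℕ) (a c h : ℕ) : List ℕ := (List.range h).map (fun j => f (c + a * j))

/-- `n` consecutive columns starting at `o` -/
def cols (f : ℕ → ℕ) (a o n h : ℕ) : List (List ℕ) := (List.range n).map (fun c => col f a (o + c) h)

theorem range_map_getD {α : Type*} (g : ℕ → α) (d : α) {n i : ℕ} (h : i < n) :
    ((List.range n).map g).getD i d = g i := by
  rw [List.getD_eq_getElem?_getD, List.getElem?_map, List.getElem?_range h]; rfl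

theorem col_getD {f : ℕ → ℕ} {a c h j : ℕ} (hj : j < h) : (col f a c h).getD j 0 = f (c + a * j) :=
  range_map_getD _ _ hj

theorem cols_getD {f : ℕ → ℕ} {a o n h c : ℕ} (hc : c < n) : (cols f a o n h).getD c [] = col f a (o + c) h :=
  range_map_getD _ _ hc

@[simp] theorem col_length {f : ℕ → ℕ} {a c h : ℕ} : (col f a c h).length = h := by simp [col]
@[simp] theorem cols_length {f : ℕ → ℕ} {a o n h : ℕ} : (cols f a o n h).length = n := by simp [cols]

theorem sum_range_map (f : ℕ → ℕ) (n : ℕ) : ((List.range n).map f).sum = ∑ i ∈ range n, f i := by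
  induction n with
  | zero => simp
  | succ n ih => rw [List.range_succ, List.map_append, List.sum_append, ih, Finset.sum_range_succ]; simp

theorem cols_sum (f : ℕ → ℕ) (a o n h : ℕ) :
    ((cols f a o n h).map List.sum).sum = ∑ c ∈ range n, ∑ j ∈ range h, f (o + c + a * j) := by
  unfold cols
  rw [List.map_map, sum_range_map]
  refine Finset.sum_congr rfl fun c _ => ?_
  show (col f a (o + c) h).sum = _
  unfold col
  rw [sum_range_map]

theorem list_eq_range_map (w : List ℕ) : w = (List.range w.length).map (fun i => w.getD i 0) := by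
  apply List.ext_getElem
  · simp
  · intro i h1 h2
    simp [List.getD_eq_getElem?_getD, h1]

theorem list_sum_eq (w : List ℕ) : w.sum = ∑ i ∈ range w.length, w.getD i 0 := by
  conv_lhs => rw [list_eq_range_map w]
  rw [sum_range_map]

theorem sum_split (f : ℕ → ℕ) (a k s : ℕ) (hs : s ≤ a) :
    ∑ i ∈ range (a * k + s), f i =
      (∑ c ∈ range s, ∑ j ∈ range (k + 1), f (0 + c + a * j)) +
        ∑ c ∈ range (a - s), ∑ j ∈ range k, f (s + c + a * j) := by
  have h1 : ∀ k, ∑ i ∈ range (a * k), f i = ∑ c ∈ range a, ∑ j ∈ range k, f (c + a * j) := by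
    intro k
    induction k with
    | zero => simp
    | succ k ih =>
      rw [Nat.mul_succ, Finset.sum_range_add, ih, ← Finset.sum_add_distrib]
      refine Finset.sum_congr rfl fun c _ => ?_
      rw [Finset.sum_range_succ, add_comm (a * k) c]
  rw [Finset.sum_range_add, h1]
  have h2 : ∑ c ∈ range a, ∑ j ∈ range k, f (c + a * j) =
      ∑ c ∈ range s, ∑ j ∈ range k, f (c + a * j) + ∑ c ∈ range (a - s), ∑ j ∈ range k, f (s + c + a * j) := by
    conv_lhs => rw [show a = s + (a - s) by omega]
    rw [Finset.sum_range_add]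
    simp only [show s + (a - s) = a by omega]
  rw [h2]
  have h3 : ∑ c ∈ range s, ∑ j ∈ range (k + 1), f (0 + c + a * j) =
      ∑ c ∈ range s, ∑ j ∈ range k, f (c + a * j) + ∑ c ∈ range s, f (a * k + c) := by
    rw [← Finset.sum_add_distrib]
    refine Finset.sum_congr rfl fun c _ => ?_
    rw [Finset.sum_range_succ, Nat.zero_add, add_comm (a * k) c]
  rw [h3]; ring

/-- rebuild a word of length `r` from its tall and short columns -/
def undo (a s r : ℕ) (T S : List (List ℕ)) : List ℕ :=
  (List.range r).map (fun i => if i % a < s then (T.getD (i % a) []).getD (i / a) 0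
    else (S.getD (i % a - s) []).getD (i / a) 0)

theorem undo_cols {w : List ℕ} {a k s : ℕ} (ha : s < a) (hw : w.length = a * k + s) :
    undo a s w.length (cols (fun i => w.getD i 0) a 0 s (k + 1))
      (cols (fun i => w.getD i 0) a s (a - s) k) = w := by
  conv_rhs => rw [list_eq_range_map w]
  unfold undo
  refine List.map_congr_left fun i hi => ?_
  rw [List.mem_range, hw] at hi
  have hmod : i % a < a := Nat.mod_lt _ (by omega)
  have hdiv : i % a + a * (i / a) = i := Nat.mod_add_div i a
  have hle : i / a ≤ k := by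
    by_contra hlt
    have : a * (k + 1) ≤ a * (i / a) := Nat.mul_le_mul_left a (by omega)
    rw [Nat.mul_succ] at this
    omega
  split_ifs with h
  · rw [cols_getD h, col_getD (by omega), Nat.zero_add, hdiv]
  · have hlt : i / a < k := by
      rcases Nat.lt_or_ge (i / a) k with h' | h'
      · exact h'
      · exfalso
        have : i / a = k := by omega
        rw [this] at hdiv
        omega
    rw [cols_getD (by omega), col_getD hlt, show s + (i % a - s) = i % a by omega, hdiv]

theorem cols_weight {w : List ℕ} {a k s : ℕ} (ha : s < a) (hw : w.length = a * k + s) :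
    w.sum = ((cols (fun i => w.getD i 0) a 0 s (k + 1)).map List.sum).sum +
      ((cols (fun i => w.getD i 0) a s (a - s) k).map List.sum).sum := by
  rw [cols_sum, cols_sum, list_sum_eq, hw, sum_split _ a k s ha.le]

/-- the block conditions -/
structure Blk (mx s a : ℕ) (w : List ℕ) : Prop where
  ok : ∀ i, i < w.length → okn mx s (w.getD i 0) (w.getD (w.length - 1 - i) 0) = true
  ch : ∀ i, i + a < w.length → w.getD (i + a) 0 ≤ w.getD i 0 + 1

theorem Blk.cp {mx s a : ℕ} {w : List ℕ} (hw : Blk mx s a w) {T1 T2 : ℕ → Bool} {c c' h : ℕ}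
    (hr : 0 < h → w.length = c + c' + 1 + a * (h - 1))
    (h1 : 0 < h → T1 (w.getD c 0) = true) (h2 : 0 < h → T2 (w.getD c' 0) = true) :
    CP mx s T1 T2 h (col (fun i => w.getD i 0) a c h) (col (fun i => w.getD i 0) a c' h) := by
  refine ⟨by simp, by simp, fun j hj => ?_, fun j hj => ?_, fun j hj => ?_, fun hh => ?_, fun hh => ?_⟩
  · have hr := hr (by omega)
    rw [col_getD hj, col_getD (by omega)]
    have e : a * (h - 1) = a * j + a * (h - 1 - j) := by
      rw [← Nat.mul_add]; congr 1; omega
    have := hw.ok (c + a * j) (by omega)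
    rwa [show w.length - 1 - (c + a * j) = c' + a * (h - 1 - j) by omega] at this
  · have hr := hr (by omega)
    rw [col_getD hj, col_getD (by omega)]
    have e : a * (h - 1) = a * (j + 1) + a * (h - 1 - (j + 1)) := by
      rw [← Nat.mul_add]; congr 1; omega
    have e2 : a * (j + 1) = a * j + a := Nat.mul_succ _ _
    have := hw.ch (c + a * j) (by omega)
    rwa [show c + a * j + a = c + a * (j + 1) by omega] at this
  · have hr := hr (by omega)
    rw [col_getD hj, col_getD (by omega)]
    have e : a * (h - 1) = a * (j + 1) + a * (h - 1 - (j + 1)) := by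
      rw [← Nat.mul_add]; congr 1; omega
    have e2 : a * (j + 1) = a * j + a := Nat.mul_succ _ _
    have := hw.ch (c' + a * j) (by omega)
    rwa [show c' + a * j + a = c' + a * (j + 1) by omega] at this
  · rw [col_getD hh]; simpa using h1 hh
  · rw [col_getD hh]; simpa using h2 hh

theorem CP.self {mx s : ℕ} {T : ℕ → Bool} {k : ℕ} {x : List ℕ} (h : CP mx s T T k x x) :
    Self mx s T k x := ⟨h.lx, h.ok, h.cx, h.t1⟩

end Helper23.NS
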