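import Pool.Agent.Helper23.NS.Block

namespace Helper23.NS
open Polynomial Finset

theorem pairs_bd (m n : ℕ) (c : ℕ → ℕ → Bool) :
    Bd {z : ℕ × ℕ | z.1 < m ∧ z.2 < n ∧ c z.1 z.2 = true} (fun z => z.1 + z.2)
      (∑ u ∈ range m, ∑ v ∈ range n, if c u v then (X : ℕ[X]) ^ (u + v) else 0) := by
  refine Bd.sum2 _ _ (T := fun u v => {w | w ∈ ({(u, v)} : Set (ℕ × ℕ)) ∧ c u v = true})
    (fun u _ v _ => Bd.ite fun _ => Bd.single (u, v) _) ?_
  rintro ⟨u, v⟩ ⟨h1, h2, h3⟩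
  exact ⟨u, mem_range.2 h1, v, mem_range.2 h2, rfl, h3⟩

theorem singles_bd (m : ℕ) (c : ℕ → Bool) :
    Bd {u : ℕ | u < m ∧ c u = true} (fun u => u)
      (∑ u ∈ range m, if c u then (X : ℕ[X]) ^ u else 0) := by
  refine Bd.sum _ (T := fun u => {w | w ∈ ({u} : Set ℕ) ∧ c u = true})
    (fun u _ => Bd.ite fun _ => Bd.single u _) ?_
  rintro u ⟨h1, h2⟩
  exact ⟨u, mem_range.2 h1, rfl, h2⟩

def Qlm (q x y : ℕ) : Prop := 2 ≤ x ∧ x ≤ q ∧ 2 ≤ y ∧ y ≤ q ∧ q ≤ x + y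
def Qlmid (q x : ℕ) : Prop := 2 ≤ x ∧ x ≤ q ∧ q ≤ 2 * x
def Qro (q x y : ℕ) : Prop := 2 ≤ x ∧ x < q ∧ 1 ≤ y ∧ y < q ∧ q - 1 ≤ x + y
def Qra (q x y : ℕ) : Prop := x = 1 ∧ 2 ≤ y ∧ y < q ∧ q - 1 ≤ 1 + y
def Qrmid (q x : ℕ) : Prop := 2 ≤ x ∧ x < q ∧ q - 1 ≤ 2 * x

theorem lm_bd (q : ℕ) : Bd {z : ℕ × ℕ | Qlm q z.1 z.2} (fun z => z.1 + z.2) (lm (X : ℕ[X]) q) := by
  unfold lm
  refine (pairs_bd (q + 1) (q + 1) fun u v => decide (2 ≤ u) && decide (2 ≤ v) && decide (q ≤ u + v)).mono ?_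
  rintro ⟨x, y⟩ ⟨h1, h2, h3, h4, h5⟩
  exact ⟨by simp only at *; omega, by simp only at *; omega, by simp_all⟩

theorem lmid_bd (q : ℕ) : Bd {x : ℕ | Qlmid q x} (fun z => z) (lmid (X : ℕ[X]) q) := by
  unfold lmid
  refine (singles_bd (q + 1) fun u => decide (2 ≤ u) && decide (q ≤ 2 * u)).mono ?_
  rintro x ⟨h1, h2, h3⟩
  exact ⟨by omega, by simp [h1, h3]⟩

theorem ro_bd (q : ℕ) : Bd {z : ℕ × ℕ | Qro q z.1 z.2} (fun z => z.1 + z.2) (ro (X : ℕ[X]) q) := by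
  unfold ro
  refine (pairs_bd q q fun u v => decide (2 ≤ u) && decide (1 ≤ v) && decide (q - 1 ≤ u + v)).mono ?_
  rintro ⟨x, y⟩ ⟨h1, h2, h3, h4, h5⟩
  exact ⟨h2, h4, by simp only [Bool.and_eq_true, decide_eq_true_eq]; exact ⟨⟨h1, h3⟩, h5⟩⟩

theorem rmid_bd (q : ℕ) : Bd {x : ℕ | Qrmid q x} (fun z => z) (rmid (X : ℕ[X]) q) := by
  unfold rmid
  refine (singles_bd q fun u => decide (2 ≤ u) && decide (q - 1 ≤ 2 * u)).mono ?_
  rintro x ⟨h1, h2, h3⟩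
  exact ⟨h2, by simp only [Bool.and_eq_true, decide_eq_true_eq]; exact ⟨h1, h3⟩⟩

theorem ra_bd (q : ℕ) : Bd {z : ℕ × ℕ | Qra q z.1 z.2} (fun z => z.1 + z.2) (ra (X : ℕ[X]) q) := by
  unfold ra
  refine Bd.sum _ (T := fun v => {w | w ∈ ({(1, v)} : Set (ℕ × ℕ)) ∧
    (decide (2 ≤ v) && decide (q - 1 ≤ 1 + v)) = true})
    (fun v _ => Bd.ite fun _ => Bd.single (1, v) _) ?_
  rintro ⟨u, v⟩ ⟨h1, h2, h3, h4⟩
  simp only at h1 h2 h3 h4
  subst h1
  exact ⟨v, mem_range.2 h3, rfl, by simp only [Bool.and_eq_true, decide_eq_true_eq]; exact ⟨h2, h4⟩⟩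

theorem mid_bd' (q : ℕ) : Bd {x : ℕ | 1 ≤ x ∧ x ≤ q ∧ q ≤ 2 * x} (fun z => z) (mid (X : ℕ[X]) q q) :=
  mid_bd q q

theorem pp_bd (q : ℕ) : Bd {z : ℕ × ℕ | okn q q z.1 z.2 = true} (fun z => z.1 + z.2) (pp (X : ℕ[X]) q) := by
  unfold pp
  refine (pairs_bd (q + 1) (q + 1) fun u v => okn q q u v).mono ?_
  rintro ⟨x, y⟩ h
  have h' := okn_iff.1 h
  exact ⟨by simp only at *; omega, by simp only at *; omega, h⟩

theorem map_id_sum (C : List ℕ) : (C.map (fun x => x)).sum = C.sum := by simp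

/-- all lengths at once -/
theorem half_bd {Q : ℕ → ℕ → Prop} {Q' : ℕ → Prop} {p h : ℕ[X]}
    (hp : Bd {z : ℕ × ℕ | Q z.1 z.2} (fun z => z.1 + z.2) p) (hh : Bd {x | Q' x} (fun x => x) h) (N : ℕ) :
    Bd {C : List ℕ | C.length ≤ N ∧ C ∈ PalS 0 Q Q' C.length} List.sum
      ((∑ j ∈ range (N + 1), p ^ j) * (1 + h)) := by
  have e : (∑ j ∈ range (N + 1), p ^ j) * (1 + h) =
      ∑ j ∈ range (N + 1), ∑ e ∈ range 2, pal (2 * j + e) p h := by
    rw [Finset.sum_mul]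
    refine Finset.sum_congr rfl fun j _ => ?_
    rw [Finset.sum_range_succ, Finset.sum_range_one]
    unfold pal
    rw [show (2 * j + 0) / 2 = j by omega, show (2 * j + 0) % 2 = 0 by omega,
      show (2 * j + 1) / 2 = j by omega, show (2 * j + 1) % 2 = 1 by omega]
    ring
  rw [e]
  refine Bd.sum2 _ _ (T := fun j e => PalS 0 Q Q' (2 * j + e)) (fun j _ e _ => ?_) ?_
  · have := pal_bd 0 (wt := fun x => x) hp hh (2 * j + e)
    simpa using this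
  · rintro C ⟨h1, h2⟩
    refine ⟨C.length / 2, mem_range.2 (by omega), C.length % 2, mem_range.2 (by omega), ?_⟩
    rwa [show 2 * (C.length / 2) + C.length % 2 = C.length by omega]

/-- `β` outer pairs of type `ro`, then a pair `(1,y)`, then an inner word from `I` -/
def Out (q : ℕ) (I : Set (List ℕ)) : ℕ → Set (List ℕ)
  | 0 => {R | ∃ x y C, Qra q x y ∧ C ∈ I ∧ R = x :: (C ++ [y])}
  | j + 1 => {R | ∃ x y C, Qro q x y ∧ C ∈ Out q I j ∧ R = x :: (C ++ [y])}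

theorem out_bd (q : ℕ) {I : Set (List ℕ)} {p : ℕ[X]} (hI : Bd I List.sum p) :
    ∀ j, Bd (Out q I j) List.sum (ro (X : ℕ[X]) q ^ j * (ra (X : ℕ[X]) q * p))
  | 0 => by
    rw [pow_zero, one_mul]
    refine (ra_bd q).mul hI (fun z C => z.1 :: (C ++ [z.2])) ?_
    rintro R ⟨x, y, C, h1, h2, rfl⟩
    exact ⟨(x, y), h1, C, h2, rfl, by simp; ring⟩
  | j + 1 => by
    rw [pow_succ', mul_assoc]
    refine (ro_bd q).mul (out_bd q hI j) (fun z C => z.1 :: (C ++ [z.2])) ?_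
    rintro R ⟨x, y, C, h1, h2, rfl⟩
    exact ⟨(x, y), h1, C, h2, rfl, by simp; ring⟩

/-- conditions on the right block in case B1 -/
theorem mem_out {q a N : ℕ} (hq : 4 ≤ q) : ∀ (β : ℕ) (R : List ℕ), 2 * (β + 1) ≤ R.length → R.length ≤ N →
    Blk (q - 1) (q - 1) a R → (∀ i, i < β → 2 ≤ R.getD i 0) → R.getD β 0 = 1 →
    R ∈ Out q {w | w.length ≤ N ∧ Blk (q - 1) (q - 1) a w} β := by
  have inner : ∀ (x y : ℕ) (C : List ℕ), Blk (q - 1) (q - 1) a (x :: (C ++ [y])) → Blk (q - 1) (q - 1) a C := by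
    intro x y C h
    constructor
    · intro i hi
      have := h.ok (i + 1) (by simp; omega)
      rw [getD_mid x y 0 rfl hi] at this
      have e : (x :: (C ++ [y])).length - 1 - (i + 1) = (C.length - 1 - i) + 1 := by simp; omega
      rwa [e, getD_mid x y 0 rfl (by omega)] at this
    · intro i hi
      have := h.ch (i + 1) (by simp; omega)
      rwa [show i + 1 + a = (i + a) + 1 by omega, getD_mid x y 0 rfl hi, getD_mid x y 0 rfl (by omega)] at this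
  intro β
  induction β with
  | zero =>
    intro R h1 h2 h3 h4 h5
    obtain ⟨x, C, y, rfl, hl⟩ := cons_snoc (n := R.length - 2) (C := R) (by omega)
    have hC : C.length + 2 = (x :: (C ++ [y])).length := by simp
    have h0 := h3.ok 0 (by simp)
    rw [show (x :: (C ++ [y])).length - 1 - 0 = C.length + 1 by simp, getD_last x y 0 rfl] at h0
    simp only [List.getD_cons_zero] at h0 h5
    rw [okn_iff] at h0
    exact ⟨x, y, C, ⟨h5, by omega, by omega, by omega⟩, ⟨by omega, inner x y C h3⟩, rfl⟩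
  | succ β ih =>
    intro R h1 h2 h3 h4 h5
    obtain ⟨x, C, y, rfl, hl⟩ := cons_snoc (n := R.length - 2) (C := R) (by omega)
    have hC : C.length + 2 = (x :: (C ++ [y])).length := by simp
    have h0 := h3.ok 0 (by simp)
    rw [show (x :: (C ++ [y])).length - 1 - 0 = C.length + 1 by simp, getD_last x y 0 rfl] at h0
    have h40 := h4 0 (by omega)
    simp only [List.getD_cons_zero] at h0 h40
    rw [okn_iff] at h0
    refine ⟨x, y, C, ⟨h40, by omega, by omega, by omega, by omega⟩, ih C (by omega) (by omega) (inner x y C h3) ?_ ?_, rfl⟩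
    · intro i hi
      have := h4 (i + 1) (by omega)
      rwa [getD_mid x y 0 rfl (by omega)] at this
    · rwa [getD_mid x y 0 rfl (by omega)] at h5

end Helper23.NS
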