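import Pool.Agent.Helper23.NS.Bd

namespace Helper23.NS
open Polynomial Finset

variable {α : Type*}

theorem pal_zero {K : Type*} [CommSemiring K] (P H : K) : pal 0 P H = 1 := by simp [pal]
theorem pal_one {K : Type*} [CommSemiring K] (P H : K) : pal 1 P H = H := by simp [pal]
theorem pal_add_two {K : Type*} [CommSemiring K] (n : ℕ) (P H : K) :
    pal (n + 2) P H = P * pal n P H := by
  unfold pal
  rw [show (n + 2) / 2 = n / 2 + 1 by omega, show (n + 2) % 2 = n % 2 by omega, pow_succ]
  ring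

theorem cons_snoc {n : ℕ} {C : List α} (h : C.length = n + 2) :
    ∃ x C' y, C = x :: (C' ++ [y]) ∧ C'.length = n := by
  match C, h with
  | x :: D, h =>
    have hD : D ≠ [] := by
      rintro rfl
      simp at h
    refine ⟨x, D.dropLast, D.getLast hD, ?_, ?_⟩
    · rw [List.dropLast_append_getLast]
    · simp at h ⊢; omega

theorem getD_mid {n : ℕ} {C' : List α} (x y d : α) (hl : C'.length = n) {i : ℕ} (hi : i < n) :
    (x :: (C' ++ [y])).getD (i + 1) d = C'.getD i d := by
  rw [List.getD_cons_succ, List.getD_append _ _ _ _ (by omega)]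

theorem getD_last {n : ℕ} {C' : List α} (x y d : α) (hl : C'.length = n) :
    (x :: (C' ++ [y])).getD (n + 1) d = y := by
  rw [List.getD_cons_succ, List.getD_append_right _ _ _ _ (by omega)]
  simp [hl]

/-- lists of length `n` with `Q` on the pairs `(C[i], C[n-1-i])`, `2i+1 < n`, and `Q'` on the
middle entry -/
def PalS (d : α) (Q : α → α → Prop) (Q' : α → Prop) (n : ℕ) : Set (List α) :=
  {C | C.length = n ∧ (∀ i, 2 * i + 1 < n → Q (C.getD i d) (C.getD (n - 1 - i) d)) ∧
    (∀ i, 2 * i + 1 = n → Q' (C.getD i d))}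

theorem PalS.inner {d : α} {Q : α → α → Prop} {Q' : α → Prop} {n : ℕ} {x y : α} {C' : List α}
    (hC : x :: (C' ++ [y]) ∈ PalS d Q Q' (n + 2)) (hl : C'.length = n) :
    Q x y ∧ C' ∈ PalS d Q Q' n := by
  obtain ⟨-, h1, h2⟩ := hC
  refine ⟨?_, hl, fun i hi => ?_, fun i hi => ?_⟩
  · have := h1 0 (by omega)
    rw [show n + 2 - 1 - 0 = n + 1 by omega, getD_last _ _ _ hl] at this
    simpa using this
  · have := h1 (i + 1) (by omega)
    rw [getD_mid _ _ _ hl (by omega), show n + 2 - 1 - (i + 1) = (n - 1 - i) + 1 by omega,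
      getD_mid _ _ _ hl (by omega)] at this
    exact this
  · have := h2 (i + 1) (by omega)
    rwa [getD_mid _ _ _ hl (by omega)] at this

theorem pal_bd (d : α) {Q : α → α → Prop} {Q' : α → Prop} {wt : α → ℕ} {p h : ℕ[X]}
    (hp : Bd {z : α × α | Q z.1 z.2} (fun z => wt z.1 + wt z.2) p)
    (hh : Bd {x | Q' x} wt h) : ∀ n, Bd (PalS d Q Q' n) (fun C => (C.map wt).sum) (pal n p h)
  | 0 => by
    rw [pal_zero, ← pow_zero X]
    refine Bd.single' [] _ 0 fun C hC => ?_
    have := List.length_eq_zero_iff.1 hC.1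
    subst this
    simp
  | 1 => by
    rw [pal_one]
    refine hh.map (fun x => [x]) fun C hC => ?_
    obtain ⟨x, rfl⟩ := List.length_eq_one_iff.1 hC.1
    refine ⟨x, ?_, rfl, by simp⟩
    have := hC.2.2 0 (by omega)
    simpa using this
  | n + 2 => by
    rw [pal_add_two]
    refine hp.mul (pal_bd d hp hh n) (fun z C' => z.1 :: (C' ++ [z.2])) fun C hC => ?_
    obtain ⟨x, C', y, rfl, hl⟩ := cons_snoc hC.1
    obtain ⟨h1, h2⟩ := PalS.inner hC hl
    refine ⟨(x, y), h1, C', h2, rfl, ?_⟩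
    simp; ring

end Helper23.NS
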