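import Pool.Agent.Helper23.NS.Defs

/-! The explicit polynomials whose coefficients bound the number of Kunz words with a letter `≥ 4`. -/

namespace Helper23.NS
open Finset

variable {K : Type*} [CommSemiring K]

/-- admissible node: letters `u, v` in `[1,mx]` with `u + v ≥ s` -/
def okn (mx s u v : ℕ) : Bool :=
  decide (1 ≤ u) && decide (u ≤ mx) && decide (1 ≤ v) && decide (v ≤ mx) && decide (s ≤ u + v)

/-- weight sum of the admissible paths with `k+1` nodes whose last node is `(u,v)`;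
the first node `(u₀,v₀)` satisfies `T u₀`. Steps `(u,v) → (u',v')` need `u' ≤ u+1`, `v ≤ v'+1`. -/
def pv (x : K) (mx s : ℕ) (T : ℕ → Bool) : ℕ → ℕ → ℕ → K
  | 0, u, v => if okn mx s u v && T u then x ^ (u + v) else 0
  | k + 1, u', v' =>
    if okn mx s u' v' then
      x ^ (u' + v') * ∑ u ∈ range (mx + 1), ∑ v ∈ range (mx + 1),
        if decide (u' ≤ u + 1) && decide (v ≤ v' + 1) then pv x mx s T k u v else 0
    else 0

/-- total over paths with `k` nodes, last node with `T2 v`; value `z` for `k = 0`. -/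
def PP (x : K) (mx s : ℕ) (T1 T2 : ℕ → Bool) (z : K) : ℕ → K
  | 0 => z
  | k + 1 => ∑ u ∈ range (mx + 1), ∑ v ∈ range (mx + 1), if T2 v then pv x mx s T1 k u v else 0

def tt : ℕ → Bool := fun _ => true
def ge2 : ℕ → Bool := fun u => decide (2 ≤ u)
def eq1 : ℕ → Bool := fun u => decide (u = 1)

/-- middle letter: `1 ≤ v ≤ mx`, `2v ≥ s` -/
def mid (x : K) (mx s : ℕ) : K :=
  ∑ v ∈ range (mx + 1), if decide (1 ≤ v) && decide (s ≤ 2 * v) then x ^ v else 0

/-- `n` palindromically paired columns -/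
def pal (n : ℕ) (P H : K) : K := P ^ (n / 2) * H ^ (n % 2)

/-- relaxed self-paired column of height `k` built from the paths `F` -/
def HH (F : ℕ → K) (m : K) (k : ℕ) : K := F (k / 2) * m ^ (k % 2)

/- right block: letters ≤ q-1, pair sums ≥ q-1 -/
def PR (x : K) (q : ℕ) : ℕ → K := PP x (q - 1) (q - 1) tt tt 1
def HR (x : K) (q : ℕ) : ℕ → K := HH (PR x q) (mid x (q - 1) (q - 1))
/- left block: letters ≤ q, pair sums ≥ q -/
def P11 (x : K) (q : ℕ) : ℕ → K := PP x q q ge2 ge2 1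
def P12 (x : K) (q : ℕ) : ℕ → K := PP x q q ge2 eq1 0
def F1 (x : K) (q : ℕ) : ℕ → K := PP x q q ge2 tt 1
def F2 (x : K) (q : ℕ) : ℕ → K := PP x q q eq1 tt 0
def H1 (x : K) (q : ℕ) : ℕ → K := HH (F1 x q) (mid x q q)
def H2 (x : K) (q : ℕ) : ℕ → K := HH (F2 x q) (mid x q q)

def RA (x : K) (q a N : ℕ) : K :=
  ∑ k ∈ range (N / a + 1), ∑ s ∈ range a,
    pal s (PR x q (k + 1)) (HR x q (k + 1)) * pal (a - s) (PR x q k) (HR x q k)

def LA (x : K) (q a N : ℕ) : K :=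
  ∑ k ∈ range (N / a),
    (∑ s ∈ range (a - 1), pal s (P11 x q (k + 2)) (H1 x q (k + 2)) * P12 x q (k + 1)
        * pal (a - 2 - s) (P11 x q (k + 1)) (H1 x q (k + 1))
      + pal (a - 1) (P11 x q (k + 2)) (H1 x q (k + 2)) * H2 x q (k + 1))

/-- pairs with both letters `≥ 2` in the left block -/
def lm (x : K) (q : ℕ) : K :=
  ∑ u ∈ range (q + 1), ∑ v ∈ range (q + 1),
    if decide (2 ≤ u) && decide (2 ≤ v) && decide (q ≤ u + v) then x ^ (u + v) else 0
def lmid (x : K) (q : ℕ) : K :=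
  ∑ u ∈ range (q + 1), if decide (2 ≤ u) && decide (q ≤ 2 * u) then x ^ u else 0
/-- outer right pairs: `2 ≤ u ≤ q-1`, `1 ≤ v ≤ q-1`, `u+v ≥ q-1` -/
def ro (x : K) (q : ℕ) : K :=
  ∑ u ∈ range q, ∑ v ∈ range q,
    if decide (2 ≤ u) && decide (1 ≤ v) && decide (q - 1 ≤ u + v) then x ^ (u + v) else 0
/-- the pair `(1,v)` -/
def ra (x : K) (q : ℕ) : K :=
  ∑ v ∈ range q, if decide (2 ≤ v) && decide (q - 1 ≤ 1 + v) then x ^ (1 + v) else 0
def rmid (x : K) (q : ℕ) : K :=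
  ∑ u ∈ range q, if decide (2 ≤ u) && decide (q - 1 ≤ 2 * u) then x ^ u else 0

def lb (x : K) (q a : ℕ) : K :=
  ra x q * ∑ i ∈ range (a - 1), pal i (lm x q) (lmid x q) * ro x q ^ (a - 2 - i)

def Bsh (x : K) (q N : ℕ) : K :=
  (∑ i ∈ range (N + 1), pal i (lm x q) (lmid x q)) * (∑ j ∈ range (N + 1), ro x q ^ j)
    * (1 + rmid x q)

/-- bound for the words with maximum `q` (used for `q = 4, 5`) -/
def EE (x : K) (q N : ℕ) : K :=
  x ^ q * (∑ a ∈ range (N + 1), (LA x q (a + 1) N + lb x q (a + 1)) * RA x q (a + 1) N + Bsh x q N)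

/- pairs only, used for `q ≥ 6` -/
def pp (x : K) (q : ℕ) : K :=
  ∑ u ∈ range (q + 1), ∑ v ∈ range (q + 1), if okn q q u v then x ^ (u + v) else 0
def AA (x : K) (q N : ℕ) : K := (∑ j ∈ range (N + 1), pp x q ^ j) * (1 + mid x q q)
def E6 (x : K) (N : ℕ) : K := ∑ q ∈ Icc 6 N, x ^ q * AA x q N * AA x (q - 1) N

/-- MODULE E (main injection) will prove
`(rword g).ncard ≤ (ET (Polynomial.X : Polynomial ℕ) N).coeff g` for `g ≤ N`. -/
def ET (x : K) (N : ℕ) : K := EE x 4 N + EE x 5 N + E6 x N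

end Helper23.NS
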