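import Pool.Agent.Helper23.NS.Cols

namespace Helper23.NS
open Polynomial Finset

theorem mid_bd (mx s : ℕ) : Bd {v : ℕ | 1 ≤ v ∧ v ≤ mx ∧ s ≤ 2 * v} (fun v => v) (mid (X : ℕ[X]) mx s) := by
  unfold mid
  refine Bd.sum _ (T := fun v => {w | w ∈ ({v} : Set ℕ) ∧ (decide (1 ≤ v) && decide (s ≤ 2 * v)) = true})
    (fun v _ => Bd.ite fun _ => Bd.single v _) ?_
  rintro v ⟨h1, h2, h3⟩
  exact ⟨v, mem_range.2 (by omega), rfl, by simp [h1, h3]⟩

/-- lists of length `n ≤ 1` -/
theorem opt_bd {α : Type*} {S : Set α} {wt : α → ℕ} {p : ℕ[X]} (h : Bd S wt p) (k : ℕ) :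
    Bd {l : List α | l.length = k % 2 ∧ ∀ x ∈ l, x ∈ S} (fun l => (l.map wt).sum) (p ^ (k % 2)) := by
  rcases Nat.mod_two_eq_zero_or_one k with e | e
  · rw [e, pow_zero, ← pow_zero X]
    refine Bd.single' [] _ 0 fun C hC => ?_
    have := List.length_eq_zero_iff.1 hC.1
    subst this; simp
  · rw [e, pow_one]
    refine h.map (fun x => [x]) fun C hC => ?_
    obtain ⟨x, rfl⟩ := List.length_eq_one_iff.1 hC.1
    exact ⟨x, hC.2 x (by simp), rfl, by simp⟩

/-- a self-paired column -/
structure Self (mx s : ℕ) (T : ℕ → Bool) (k : ℕ) (x : List ℕ) : Prop where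
  lx : x.length = k
  ok : ∀ j, j < k → okn mx s (x.getD j 0) (x.getD (k - 1 - j) 0) = true
  cx : ∀ j, j + 1 < k → x.getD (j + 1) 0 ≤ x.getD j 0 + 1
  t1 : 0 < k → T (x.getD 0 0) = true

theorem getD_take' {x : List ℕ} {n j : ℕ} (hj : j < n) : (x.take n).getD j 0 = x.getD j 0 := by
  rw [List.getD_eq_getElem?_getD, List.getD_eq_getElem?_getD, List.getElem?_take_of_lt hj]

theorem getD_drop' {x : List ℕ} {n j : ℕ} : (x.drop n).getD j 0 = x.getD (n + j) 0 := by
  rw [List.getD_eq_getElem?_getD, List.getD_eq_getElem?_getD, List.getElem?_drop]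

theorem self_bd {mx s : ℕ} {T : ℕ → Bool} (k : ℕ) {F : ℕ → ℕ[X]}
    (hF : Bd {c : List ℕ × List ℕ | CP mx s T tt (k / 2) c.1 c.2} (fun c => c.1.sum + c.2.sum) (F (k / 2))) :
    Bd {x | Self mx s T k x} List.sum (HH F (mid (X : ℕ[X]) mx s) k) := by
  unfold HH
  refine hF.mul (opt_bd (mid_bd mx s) k) (fun c m => c.1 ++ (m ++ c.2)) ?_
  intro x hx
  have hx : Self mx s T k x := hx
  have hl := hx.lx
  refine ⟨(x.take (k / 2), x.drop (k - k / 2)), ?_, (x.drop (k / 2)).take (k % 2), ⟨?_, ?_⟩, ?_, ?_⟩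
  · refine ⟨?_, ?_, fun j hj => ?_, fun j hj => ?_, fun j hj => ?_, fun hk => ?_, fun _ => rfl⟩
    · simp only [List.length_take]; omega
    · simp only [List.length_drop]; omega
    · simp only [getD_take' hj, getD_drop']
      have := hx.ok j (by omega)
      rwa [show k - k / 2 + (k / 2 - 1 - j) = k - 1 - j by omega]
    · simp only [getD_take' hj, getD_take' (show j < k / 2 by omega)]
      exact hx.cx j (by omega)
    · simp only [getD_drop']
      exact hx.cx (k - k / 2 + j) (by omega)
    · simp only [getD_take' hk]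
      exact hx.t1 (by omega)
  · simp only [List.length_take, List.length_drop]; omega
  · intro v hv
    rcases Nat.mod_two_eq_zero_or_one k with e | e
    · rw [e] at hv; simp at hv
    · rw [e] at hv
      have hv' : v = x.getD (k / 2) 0 := by
        rw [List.mem_iff_getElem?] at hv
        obtain ⟨i, hi⟩ := hv
        rcases Nat.eq_zero_or_pos i with rfl | hi0
        · rw [List.getElem?_take_of_lt (by omega), List.getElem?_drop] at hi
          rw [List.getD_eq_getElem?_getD, show k / 2 = k / 2 + 0 by omega, hi]; rfl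
        · rw [List.getElem?_take_eq_none (by omega)] at hi
          exact absurd hi (by simp)
      have hok := hx.ok (k / 2) (by omega)
      rw [show k - 1 - k / 2 = k / 2 by omega, ← hv', okn_iff] at hok
      exact ⟨hok.1, hok.2.1, by omega⟩
  · show x.take (k / 2) ++ ((x.drop (k / 2)).take (k % 2) ++ x.drop (k - k / 2)) = x
    have : x.drop (k - k / 2) = (x.drop (k / 2)).drop (k % 2) := by
      rw [List.drop_drop]; congr 1; omega
    rw [this, List.take_append_drop, List.take_append_drop]
  · show x.sum = (x.take (k / 2)).sum + (x.drop (k - k / 2)).sum + (((x.drop (k / 2)).take (k % 2)).map (fun v => v)).sum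
    have h1 : x.drop (k - k / 2) = (x.drop (k / 2)).drop (k % 2) := by
      rw [List.drop_drop]; congr 1; omega
    have h2 : x.sum = (x.take (k / 2)).sum + (x.drop (k / 2)).sum := by
      rw [← List.sum_append, List.take_append_drop]
    have h3 : (x.drop (k / 2)).sum = ((x.drop (k / 2)).take (k % 2)).sum + ((x.drop (k / 2)).drop (k % 2)).sum := by
      rw [← List.sum_append, List.take_append_drop]
    rw [h1, h2, h3]; simp; ring

end Helper23.NS
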